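import Mathlib

open MeasureTheory Set Filter Topology

namespace Pool.Agent.R609.QB

/-- The distribution function `x ↦ ν (-∞, x]` of a measure on the line. -/
noncomputable def df (ν : Measure ℝ) (x : ℝ) : ℝ := ν.real (Iic x)

/-- The quantile `F⁻¹(p) = inf {x : F x ≥ p}`. -/
noncomputable def qf (ν : Measure ℝ) (p : ℝ) : ℝ := sInf {x : ℝ | p ≤ df ν x}

/-- The base distribution `W = df μ`: absolutely continuous, support interval `[a, d)`
(`d` may be `⊤`), strictly increasing there. -/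
structure Base (μ : Measure ℝ) (a : ℝ) (d : EReal) : Prop where
  prob : IsProbabilityMeasure μ
  ac : μ ≪ volume
  lt : (a : EReal) < d
  left : df μ a = 0
  right : ∀ x : ℝ, d ≤ (x : EReal) → df μ x = 1
  mono : StrictMonoOn (df μ) {x : ℝ | a ≤ x ∧ (x : EReal) < d}

/-- `W⁻¹(y) = inf {x ∈ [a, ∞) : W x ≥ y}` as an extended real number
(so `W⁻¹(0) = a_W` and `W⁻¹(1) = d_W`, possibly `⊤`). -/
noncomputable def Winv (μ : Measure ℝ) (a : ℝ) (y : ℝ) : EReal :=
  sInf {x : EReal | ∃ r : ℝ, x = (r : EReal) ∧ a ≤ r ∧ y ≤ df μ r}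

/-- The (closed) support interval of `F = df ν`. -/
def suppI (ν : Measure ℝ) : Set ℝ :=
  {x : ℝ | (∀ z, x < z → 0 < df ν z) ∧ (∀ z, z < x → df ν z < 1)}

/-- Concavity on `s` of a function with values in the extended reals (convex hypograph). -/
def ConcE (s : Set ℝ) (φ : ℝ → EReal) : Prop :=
  Convex ℝ {z : ℝ × ℝ | z.1 ∈ s ∧ (z.2 : EReal) ≤ φ z.1}

/-- Convexity on `s` of a function with values in the extended reals (convex epigraph). -/
def ConvE (s : Set ℝ) (φ : ℝ → EReal) : Prop :=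
  Convex ℝ {z : ℝ × ℝ | z.1 ∈ s ∧ φ z.1 ≤ (z.2 : EReal)}

/-- A probability measure on the line whose distribution function has left end-point `0` and
second moment in `(0, ∞)`. -/
structure Adm (ν : Measure ℝ) : Prop where
  prob : IsProbabilityMeasure ν
  neg : ∀ x < 0, df ν x = 0
  pos : ∀ x > 0, 0 < df ν x
  int : Integrable (fun x : ℝ => x ^ 2) ν
  mom : 0 < ∫ x, x ^ 2 ∂ν

/-- The class `𝒞⁺_W` (`F ⪰_c W`). -/
def CPlus (μ : Measure ℝ) (a : ℝ) : Set (Measure ℝ) :=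
  {ν | Adm ν ∧ ConcE (suppI ν) (fun x => Winv μ a (df ν x))}

/-- The class `𝒞⁻_W` (`F ⪯_c W`), read literally: an atom at the left end-point is allowed. -/
def CMinusLit (μ : Measure ℝ) (a : ℝ) : Set (Measure ℝ) :=
  {ν | Adm ν ∧ ConvE (suppI ν) (fun x => Winv μ a (df ν x))}

/-- The class `𝒞⁻_W` (`F ⪯_c W`) without an atom at the left end-point. -/
def CMinus (μ : Measure ℝ) (a : ℝ) : Set (Measure ℝ) :=
  {ν | ν ∈ CMinusLit μ a ∧ df ν 0 = 0}

/-- The ratio `F⁻¹(p) / m_F`. -/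
noncomputable def ratio (p : ℝ) (ν : Measure ℝ) : ℝ := qf ν p / √(∫ x, x ^ 2 ∂ν)

section basic
variable {ν : Measure ℝ} [IsProbabilityMeasure ν]

lemma df_eq_cdf (x : ℝ) : df ν x = ProbabilityTheory.cdf ν x :=
  (ProbabilityTheory.cdf_eq_real ν x).symm

lemma df_mono : Monotone (df ν) := fun x y h => by
  rw [df_eq_cdf, df_eq_cdf]; exact ProbabilityTheory.monotone_cdf ν h

lemma df_nonneg (x : ℝ) : 0 ≤ df ν x := measureReal_nonneg

lemma df_le_one (x : ℝ) : df ν x ≤ 1 := by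
  rw [df_eq_cdf]; exact ProbabilityTheory.cdf_le_one ν x

lemma df_rc (x : ℝ) : ContinuousWithinAt (df ν) (Ici x) x := by
  have h := (ProbabilityTheory.cdf ν).right_continuous x
  have : df ν = ProbabilityTheory.cdf ν := funext df_eq_cdf
  rw [this]; exact h

lemma df_top : Tendsto (df ν) atTop (𝓝 1) := by
  have : df ν = ProbabilityTheory.cdf ν := funext df_eq_cdf
  rw [this]; exact ProbabilityTheory.tendsto_cdf_atTop ν

lemma df_bot : Tendsto (df ν) atBot (𝓝 0) := by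
  have : df ν = ProbabilityTheory.cdf ν := funext df_eq_cdf
  rw [this]; exact ProbabilityTheory.tendsto_cdf_atBot ν

/-- right-continuity in the form used below. -/
lemma df_lt_right {x c : ℝ} (h : df ν x < c) : ∃ y > x, df ν y < c := by
  have h1 : ∀ᶠ y in 𝓝[>] x, df ν y < c :=
    ((df_rc x).mono Ioi_subset_Ici_self).eventually (gt_mem_nhds h)
  have h2 : ∀ᶠ y in 𝓝[>] x, x < y := self_mem_nhdsWithin
  obtain ⟨y, hy1, hy2⟩ := (h2.and h1).exists
  exact ⟨y, hy1, hy2⟩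

lemma qf_bdd {p : ℝ} (hp : 0 < p) : BddBelow {x : ℝ | p ≤ df ν x} := by
  have h : ∀ᶠ x in atBot, df ν x < p := df_bot.eventually (gt_mem_nhds hp)
  obtain ⟨b, hb⟩ := h.exists
  refine ⟨b, fun x hx => ?_⟩
  by_contra hlt
  push Not at hlt
  have := df_mono (ν := ν) hlt.le
  simp only [mem_setOf_eq] at hx
  linarith

lemma qf_ne {p : ℝ} (hp : p < 1) : {x : ℝ | p ≤ df ν x}.Nonempty := by
  have h : ∀ᶠ x in atTop, p < df ν x := df_top.eventually (lt_mem_nhds hp)
  obtain ⟨b, hb⟩ := h.exists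
  exact ⟨b, hb.le⟩

lemma lt_of_lt_qf {p x : ℝ} (hp : 0 < p) (hx : x < qf ν p) : df ν x < p := by
  by_contra h
  push Not at h
  exact absurd (csInf_le (qf_bdd hp) h) (not_le.mpr hx)

lemma le_df_qf {p : ℝ} (hp : p < 1) : p ≤ df ν (qf ν p) := by
  by_contra h
  push Not at h
  obtain ⟨y, hy, hy2⟩ := df_lt_right h
  obtain ⟨z, hz, hzy⟩ := exists_lt_of_csInf_lt (qf_ne hp) hy
  have := df_mono (ν := ν) hzy.le
  simp only [mem_setOf_eq] at hz
  linarith

lemma qf_le {p x : ℝ} (hp : 0 < p) (h : p ≤ df ν x) : qf ν p ≤ x := csInf_le (qf_bdd hp) h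

lemma qf_eq {p q : ℝ} (hp : 0 < p) (hp1 : p < 1) (h1 : p ≤ df ν q)
    (h2 : ∀ x < q, df ν x < p) : qf ν p = q := by
  apply le_antisymm (qf_le hp h1)
  by_contra h
  push Not at h
  exact absurd (h2 _ h) (not_lt.mpr (le_df_qf hp1))

end basic

section base
variable {μ : Measure ℝ} {a : ℝ} {d : EReal}

lemma Base.noAtom (hB : Base μ a d) (x : ℝ) : μ {x} = 0 := hB.ac (by simp)

lemma Base.cont (hB : Base μ a d) : Continuous (df μ) := by
  haveI := hB.prob
  rw [continuous_iff_continuousAt]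
  intro x
  have h : df μ = ProbabilityTheory.cdf μ := funext df_eq_cdf
  rw [h]
  have h1 : (ProbabilityTheory.cdf μ).measure {x} = 0 := by
    rw [ProbabilityTheory.measure_cdf]; exact hB.noAtom x
  rw [StieltjesFunction.measure_singleton] at h1
  rw [ENNReal.ofReal_eq_zero] at h1
  rw [(ProbabilityTheory.cdf μ).mono.continuousAt_iff_leftLim_eq_rightLim,
    (ProbabilityTheory.cdf μ).rightLim_eq]
  apply le_antisymm ((ProbabilityTheory.cdf μ).mono.leftLim_le le_rfl)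
  linarith

lemma Base.zero (hB : Base μ a d) {x : ℝ} (hx : x ≤ a) : df μ x = 0 := by
  haveI := hB.prob
  have := df_mono (ν := μ) hx
  rw [hB.left] at this
  exact le_antisymm this (df_nonneg x)

lemma Base.strict (hB : Base μ a d) {x y : ℝ} (hx : a ≤ x) (hxy : x < y)
    (hxd : (x : EReal) < d) : df μ x < df μ y := by
  haveI := hB.prob
  rcases lt_or_ge (y : EReal) d with h | h
  · exact hB.mono ⟨hx, hxd⟩ ⟨hx.trans hxy.le, h⟩ hxy
  · rw [hB.right y h]
    obtain ⟨z, hz1, hz2⟩ := EReal.lt_iff_exists_real_btwn.mp hxd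
    have h1 := hB.mono ⟨hx, hxd⟩ ⟨hx.trans (EReal.coe_lt_coe_iff.mp hz1).le, hz2⟩
      (EReal.coe_lt_coe_iff.mp hz1)
    exact h1.trans_le (df_le_one z)

lemma Base.lt_one (hB : Base μ a d) {x : ℝ} (hxd : (x : EReal) < d) : df μ x < 1 := by
  haveI := hB.prob
  rcases le_total a x with h | h
  · have := hB.strict h (lt_add_one x) hxd
    exact this.trans_le (df_le_one _)
  · rw [hB.zero h]; norm_num

lemma Base.pos (hB : Base μ a d) {x : ℝ} (hx : a < x) : 0 < df μ x := by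
  have := hB.strict le_rfl hx hB.lt
  rwa [hB.left] at this

lemma Base.lt_d (hB : Base μ a d) {x : ℝ} (hx : df μ x < 1) : (x : EReal) < d := by
  by_contra h
  push Not at h
  rw [hB.right x h] at hx
  exact lt_irrefl _ hx

/-- `W x ≤ W y` with `W x < 1`, `a ≤ x` implies `x ≤ y`. -/
lemma Base.le_of_le (hB : Base μ a d) {x y : ℝ} (hx : 0 < df μ x ∨ a ≤ y)
    (hx1 : (x : EReal) ≤ d) (h : df μ x ≤ df μ y) : x ≤ y := by
  haveI := hB.prob
  by_contra hlt
  push Not at hlt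
  have hyd : (y : EReal) < d := lt_of_lt_of_le (EReal.coe_lt_coe_iff.mpr hlt) hx1
  have hy : a ≤ y := by
    rcases hx with hx | hx
    · by_contra hya
      push Not at hya
      rw [hB.zero hya.le] at h
      linarith
    · exact hx
  have := hB.strict hy hlt hyd
  linarith

lemma Base.lt_of_lt (hB : Base μ a d) {x y : ℝ} (h : df μ x < df μ y) : x < y := by
  haveI := hB.prob
  by_contra hlt
  push Not at hlt
  have := df_mono (ν := μ) hlt
  linarith

/-- The `p`-quantile of the base. -/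
lemma Base.qf_spec (hB : Base μ a d) {p : ℝ} (hp : 0 < p) (hp1 : p < 1) :
    a < qf μ p ∧ ((qf μ p : ℝ) : EReal) < d ∧ df μ (qf μ p) = p := by
  haveI := hB.prob
  have h1 : p ≤ df μ (qf μ p) := le_df_qf hp1
  have h2 : df μ (qf μ p) ≤ p := by
    have hc : Tendsto (df μ) (𝓝[<] (qf μ p)) (𝓝 (df μ (qf μ p))) :=
      hB.cont.continuousAt.tendsto.mono_left nhdsWithin_le_nhds
    refine le_of_tendsto hc ?_
    filter_upwards [self_mem_nhdsWithin] with x hx
    exact (lt_of_lt_qf hp hx).le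
  have h3 : df μ (qf μ p) = p := le_antisymm h2 h1
  refine ⟨?_, hB.lt_d (by rw [h3]; exact hp1), h3⟩
  by_contra h
  push Not at h
  rw [hB.zero h] at h3
  linarith

/-- `W⁻¹ y ≤ r`. -/
lemma Base.Winv_le (hB : Base μ a d) {y r : ℝ} :
    Winv μ a y ≤ (r : EReal) ↔ a ≤ r ∧ y ≤ df μ r := by
  haveI := hB.prob
  constructor
  · intro h
    have key : ∀ ε > 0, a ≤ r + ε ∧ y ≤ df μ (r + ε) := by
      intro ε hε
      have h1 : Winv μ a y < ((r + ε : ℝ) : EReal) :=
        lt_of_le_of_lt h (EReal.coe_lt_coe_iff.mpr (by linarith))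
      obtain ⟨z, ⟨s, rfl, hs1, hs2⟩, hz⟩ := sInf_lt_iff.mp h1
      have hs := EReal.coe_lt_coe_iff.mp hz
      exact ⟨hs1.trans hs.le, hs2.trans (df_mono hs.le)⟩
    constructor
    · exact le_of_forall_pos_le_add fun ε hε => (key ε hε).1
    · by_contra hlt
      push Not at hlt
      obtain ⟨z, hz1, hz2⟩ := df_lt_right hlt
      have := (key (z - r) (by linarith)).2
      rw [add_sub_cancel] at this
      linarith
  · rintro ⟨h1, h2⟩
    exact sInf_le ⟨r, rfl, h1, h2⟩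

/-- `r ≤ W⁻¹ y`. -/
lemma Base.le_Winv {y r : ℝ} :
    (r : EReal) ≤ Winv μ a y ↔ ∀ s, a ≤ s → y ≤ df μ s → r ≤ s := by
  unfold Winv
  rw [le_sInf_iff]
  constructor
  · intro h s hs1 hs2
    exact EReal.coe_le_coe_iff.mp (h _ ⟨s, rfl, hs1, hs2⟩)
  · rintro h z ⟨s, rfl, hs1, hs2⟩
    exact EReal.coe_le_coe_iff.mpr (h s hs1 hs2)

/-- `W r < y ≤ 1` gives `r ≤ W⁻¹ y`. -/
lemma Base.le_Winv_of_lt (hB : Base μ a d) {y r : ℝ} (h : df μ r < y) :
    (r : EReal) ≤ Winv μ a y := by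
  rw [Base.le_Winv]
  intro s hs1 hs2
  exact (hB.lt_of_lt (lt_of_lt_of_le h hs2)).le

/-- if `r ≤ W⁻¹ y`, `r < d`, then `W r ≤ y`. -/
lemma Base.df_le_of_le_Winv (hB : Base μ a d) {y r : ℝ} (hy : 0 ≤ y) (hy1 : y ≤ 1)
    (h : (r : EReal) ≤ Winv μ a y) : df μ r ≤ y := by
  haveI := hB.prob
  rw [Base.le_Winv] at h
  by_contra hlt
  push Not at hlt
  have har : a < r := by
    by_contra hh
    push Not at hh
    rw [hB.zero hh] at hlt
    linarith
  -- choose s < r with y ≤ W s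
  have hc : Tendsto (df μ) (𝓝[<] r) (𝓝 (df μ r)) :=
    hB.cont.continuousAt.tendsto.mono_left nhdsWithin_le_nhds
  have h1 : ∀ᶠ s in 𝓝[<] r, y < df μ s := hc.eventually (lt_mem_nhds hlt)
  have h2 : ∀ᶠ s in 𝓝[<] r, s < r := self_mem_nhdsWithin
  have h3 : ∀ᶠ s in 𝓝[<] r, a < s :=
    (lt_mem_nhds har : ∀ᶠ s in 𝓝 r, a < s).filter_mono nhdsWithin_le_nhds
  obtain ⟨s, hs1, hs2, hs3⟩ := (h1.and (h2.and h3)).exists
  have := h s hs3.le hs1.le
  linarith

end base

end Pool.Agent.R609.QB
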