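import Pool.Agent.R609.QB.Opt

open MeasureTheory Set Filter Topology

namespace Pool.Agent.R609.QB

variable {μ ν : Measure ℝ} {a : ℝ} {d : EReal} {p : ℝ}

lemma sq_ineq {q X A B : ℝ} (hq : 0 ≤ q) (hX : 0 ≤ X) (hA : 0 < A) (hB : 0 < B)
    (h : q ^ 2 * B ≤ X ^ 2 * A) : q / √A ≤ X / √B := by
  rw [div_le_div_iff₀ (Real.sqrt_pos.mpr hA) (Real.sqrt_pos.mpr hB)]
  rw [← pow_le_pow_iff_left₀ (by positivity) (by positivity) two_ne_zero, mul_pow, mul_pow,
    Real.sq_sqrt hB.le, Real.sq_sqrt hA.le]
  exact h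

lemma ratio_map (hB : Base μ a d) (hp : 0 < p) (hp1 : p < 1) {g : ℝ → ℝ} (hg : Continuous g)
    (hm : Monotone g) : ratio p (μ.map g) = g (qf μ p) / √(∫ v, g v ^ 2 ∂μ) := by
  unfold ratio
  rw [qf_map hB hp hp1 hg hm, integral_map hg.measurable.aemeasurable (by fun_prop)]

lemma qf_nonneg (hA : Adm ν) (hp : 0 < p) (hp1 : p < 1) : 0 ≤ qf ν p := by
  haveI := hA.prob
  by_contra hlt
  push Not at hlt
  have := hA.neg _ hlt
  have h2 : p ≤ df ν (qf ν p) := le_df_qf hp1
  linarith

lemma ratio_nonneg (hA : Adm ν) (hp : 0 < p) (hp1 : p < 1) : 0 ≤ ratio p ν :=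
  div_nonneg (qf_nonneg hA hp hp1) (Real.sqrt_nonneg _)

/-! ### the class `𝒞⁺` -/

lemma hinge_conv (t : ℝ) : ConvexOn ℝ univ (fun v : ℝ => max (v - t) 0) := by
  refine ⟨convex_univ, fun x _ y _ s u hs hu hsu => ?_⟩
  simp only [smul_eq_mul]
  have h1 := mul_le_mul_of_nonneg_left (le_max_left (x - t) 0) hs
  have h2 := mul_le_mul_of_nonneg_left (le_max_left (y - t) 0) hu
  have h3 := mul_nonneg hs (le_max_right (x - t) 0)
  have h4 := mul_nonneg hu (le_max_right (y - t) 0)
  refine max_le ?_ (add_nonneg h3 h4)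
  have : s * x + u * y - t = s * (x - t) + u * (y - t) := by
    linear_combination (t) * hsu
  linarith

lemma hinge_mono (t : ℝ) : Monotone (fun v : ℝ => max (v - t) 0) := fun x y h =>
  max_le_max (by linarith) le_rfl

lemma hinge_mem (hB : Base μ a d) (hI : Integrable (fun v : ℝ => v ^ 2) μ) {t : ℝ} (hat : a ≤ t)
    (htd : (t : EReal) < d) : μ.map (fun v : ℝ => max (v - t) 0) ∈ CPlus μ a := by
  haveI := hB.prob
  refine cplus_mem hB (by fun_prop) (hinge_mono t) (hinge_conv t) (fun v => le_max_right _ _)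
    hat htd (by simp) (fun v hv => lt_max_of_lt_left (by linarith)) (int_max_sq hI t)

lemma cplus_upper (hB : Base μ a d) (hp : 0 < p) (hp1 : p < 1)
    (hI : Integrable (fun v : ℝ => v ^ 2) μ) {t : ℝ} (ht : t ∈ Ico a (qf μ p))
    (hO : Opt μ a p t) {ν : Measure ℝ} (hν : ν ∈ CPlus μ a) :
    ratio p ν ≤ (qf μ p - t) / √(T μ t) := by
  haveI := hB.prob
  have hA := hν.1
  obtain ⟨hxa, hxd, hxp⟩ := hB.qf_spec hp hp1
  have htd : (t : EReal) < d := (EReal.coe_lt_coe_iff.mpr ht.2).trans hxd
  have hXt : 0 ≤ qf μ p - t := by linarith [ht.2]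
  rcases (qf_nonneg hA hp hp1).eq_or_lt with h0 | h0
  · unfold ratio
    rw [← h0, zero_div]
    exact div_nonneg hXt (Real.sqrt_nonneg _)
  · obtain ⟨u, hu, _, hb⟩ := cplus_bound hB hp hp1 hν h0
    have hud : (u : EReal) < d := (EReal.coe_lt_coe_iff.mpr hu.2).trans hxd
    have hTu := T_pos hB hI hud
    have hTt := T_pos hB hI htd
    have ho := opt_ineq hB hp hp1 hI ht hO hu
    refine sq_ineq h0.le hXt hA.mom hTt ?_
    have hm := hA.mom
    set m := ∫ x, x ^ 2 ∂ν
    have h1 : (qf ν p ^ 2 * T μ t) * T μ u ≤ ((qf μ p - t) ^ 2 * m) * T μ u := by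
      have e1 := mul_le_mul_of_nonneg_right hb hTt.le
      have e2 := mul_le_mul_of_nonneg_right ho hm.le
      nlinarith
    exact le_of_mul_le_mul_right h1 hTu

lemma smooth_mem (hB : Base μ a d) (hI : Integrable (fun v : ℝ => v ^ 2) μ) {t α β : ℝ}
    (hat : a ≤ t) (hα : 0 < α) (hβ : 0 ≤ β) :
    (μ.map (fun v : ℝ => β * max (v - t) 0 + α * max (v - a) 0) ∈ CPlus μ a) ∧
      df (μ.map (fun v : ℝ => β * max (v - t) 0 + α * max (v - a) 0)) 0 = 0 := by
  haveI := hB.prob
  constructor
  · refine cplus_mem hB (b := a) (by fun_prop) (((hinge_mono t).const_mul hβ).add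
      ((hinge_mono a).const_mul hα.le)) (((hinge_conv t).smul hβ).add ((hinge_conv a).smul hα.le))
      (fun v => add_nonneg (mul_nonneg hβ (le_max_right _ _)) (mul_nonneg hα.le (le_max_right _ _)))
      le_rfl hB.lt ?_ (fun v hv => ?_) ?_
    · rw [max_eq_right (by linarith : a - t ≤ 0)]; simp
    · have : 0 < max (v - a) 0 := lt_max_of_lt_left (by linarith)
      have h2 := mul_pos hα this
      have h3 := mul_nonneg hβ (le_max_right (v - t) 0)
      linarith
    · have i1 := int_mul (int_max_sq hI t) (int_max_sq hI a) (by fun_prop) (by fun_prop)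
      have : (fun v : ℝ => (β * max (v - t) 0 + α * max (v - a) 0) ^ 2) = fun v =>
          (β ^ 2 * (max (v - t) 0) ^ 2 + α ^ 2 * (max (v - a) 0) ^ 2)
            + 2 * α * β * (max (v - t) 0 * max (v - a) 0) := by ext v; ring
      rw [this]
      exact (((int_max_sq hI t).const_mul _).add ((int_max_sq hI a).const_mul _)).add
        (i1.const_mul _)
  · rw [df_map_eq (by fun_prop)]
    have : {v : ℝ | β * max (v - t) 0 + α * max (v - a) 0 ≤ 0} ⊆ Iic a := by
      intro v hv
      simp only [Set.mem_ofPred_eq] at hv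
      by_contra hlt
      simp only [mem_Iic, not_le] at hlt
      have : 0 < max (v - a) 0 := lt_max_of_lt_left (by linarith)
      have h2 := mul_pos hα this
      have h3 := mul_nonneg hβ (le_max_right (v - t) 0)
      linarith
    have h := measureReal_mono (μ := μ) this
    have h2 : μ.real (Iic a) = 0 := hB.left
    exact le_antisymm (h.trans h2.le) measureReal_nonneg

lemma smooth_mono {t α β : ℝ} (hα : 0 < α) (hβ : 0 ≤ β) :
    Monotone (fun v : ℝ => β * max (v - t) 0 + α * max (v - a) 0) :=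
  ((hinge_mono t).const_mul hβ).add ((hinge_mono a).const_mul hα.le)

theorem cplus_noatom_lub (hB : Base μ a d) (hp : 0 < p) (hp1 : p < 1)
    (hI : Integrable (fun v : ℝ => v ^ 2) μ) {t : ℝ} (ht : t ∈ Ico a (qf μ p))
    (hO : Opt μ a p t) :
    IsLUB (ratio p '' {ν | ν ∈ CPlus μ a ∧ df ν 0 = 0}) ((qf μ p - t) / √(T μ t)) := by
  haveI := hB.prob
  obtain ⟨hxa, hxd, hxp⟩ := hB.qf_spec hp hp1
  have htd : (t : EReal) < d := (EReal.coe_lt_coe_iff.mpr ht.2).trans hxd
  have hTt := T_pos hB hI htd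
  constructor
  · rintro _ ⟨ν, hν, rfl⟩
    exact cplus_upper hB hp hp1 hI ht hO hν.1
  · intro w hw
    set X := qf μ p with hX
    set A := ∫ v, max (v - t) 0 * max (v - a) 0 ∂μ with hA
    have i1 := int_mul (int_max_sq hI t) (int_max_sq hI a) (by fun_prop) (by fun_prop)
    have hmom : ∀ ε : ℝ, ∫ v, (1 * max (v - t) 0 + ε * max (v - a) 0) ^ 2 ∂μ
        = T μ t + ε ^ 2 * T μ a + 2 * ε * A := by
      intro ε
      have : (fun v : ℝ => (1 * max (v - t) 0 + ε * max (v - a) 0) ^ 2) = fun v =>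
          ((max (v - t) 0) ^ 2 + ε ^ 2 * (max (v - a) 0) ^ 2)
            + 2 * ε * (max (v - t) 0 * max (v - a) 0) := by ext v; ring
      have i2 : Integrable (fun v : ℝ => (max (v - t) 0) ^ 2 + ε ^ 2 * (max (v - a) 0) ^ 2) μ :=
        (int_max_sq hI t).add ((int_max_sq hI a).const_mul _)
      rw [this, integral_add i2 (i1.const_mul _), integral_add (int_max_sq hI t)
        ((int_max_sq hI a).const_mul _), integral_const_mul, integral_const_mul]
      rfl
    have hr : ∀ ε : ℝ, 0 < ε → ((X - t) + ε * (X - a)) / √(T μ t + ε ^ 2 * T μ a + 2 * ε * A) ≤ w := by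
      intro ε hε
      have hm := smooth_mem (t := t) hB hI ht.1 hε (zero_le_one)
      have h1 := hw ⟨_, hm, rfl⟩
      rw [ratio_map hB hp hp1 (by fun_prop) (smooth_mono hε zero_le_one), hmom] at h1
      rw [← hX, max_eq_left (by linarith [ht.2] : 0 ≤ X - t),
        max_eq_left (by linarith : 0 ≤ X - a), one_mul] at h1
      exact h1
    have htend : Tendsto (fun ε : ℝ => ((X - t) + ε * (X - a)) /
        √(T μ t + ε ^ 2 * T μ a + 2 * ε * A)) (𝓝[>] 0) (𝓝 ((X - t) / √(T μ t))) := by
      have hc : ContinuousAt (fun ε : ℝ => ((X - t) + ε * (X - a)) /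
        √(T μ t + ε ^ 2 * T μ a + 2 * ε * A)) 0 := by
        refine ContinuousAt.div (by fun_prop) (by fun_prop) ?_
        simp only [ne_eq, OfNat.ofNat_ne_zero, not_false_eq_true, zero_pow, zero_mul, add_zero,
          mul_zero]
        exact (Real.sqrt_pos.mpr hTt).ne'
      have := hc.tendsto
      simp only [ne_eq, OfNat.ofNat_ne_zero, not_false_eq_true, zero_pow, zero_mul, add_zero,
          mul_zero] at this
      exact this.mono_left nhdsWithin_le_nhds
    refine le_of_tendsto htend ?_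
    filter_upwards [self_mem_nhdsWithin] with ε hε
    exact hr ε hε

theorem cplus_noatom_glb (hB : Base μ a d) (hp : 0 < p) (hp1 : p < 1)
    (hI : Integrable (fun v : ℝ => v ^ 2) μ) :
    IsGLB (ratio p '' {ν | ν ∈ CPlus μ a ∧ df ν 0 = 0}) 0 := by
  haveI := hB.prob
  obtain ⟨hxa, hxd, hxp⟩ := hB.qf_spec hp hp1
  constructor
  · rintro _ ⟨ν, hν, rfl⟩
    exact ratio_nonneg hν.1.1 hp hp1
  · intro w hw
    set X := qf μ p with hX
    have hT := T_pos hB hI hxd
    have hr : ∀ K : ℝ, 0 < K → w ≤ (X - a) / √(T μ X) * K⁻¹ := by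
      intro K hK
      have hm := smooth_mem (t := X) hB hI hxa.le (zero_lt_one) hK.le
      have h1 := hw ⟨_, hm, rfl⟩
      rw [ratio_map hB hp hp1 (by fun_prop) (smooth_mono zero_lt_one hK.le)] at h1
      rw [← hX, sub_self, max_self, max_eq_left (by linarith : 0 ≤ X - a), mul_zero, zero_add,
        one_mul] at h1
      refine h1.trans ?_
      have h2 : K ^ 2 * T μ X ≤ ∫ v, (K * max (v - X) 0 + 1 * max (v - a) 0) ^ 2 ∂μ := by
        unfold T
        rw [← integral_const_mul]
        refine integral_mono ((int_max_sq hI X).const_mul _) ?_ fun v => ?_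
        · have i1 := int_mul (int_max_sq hI X) (int_max_sq hI a) (by fun_prop) (by fun_prop)
          have : (fun v : ℝ => (K * max (v - X) 0 + 1 * max (v - a) 0) ^ 2) = fun v =>
              (K ^ 2 * (max (v - X) 0) ^ 2 + (max (v - a) 0) ^ 2)
                + 2 * K * (max (v - X) 0 * max (v - a) 0) := by ext v; ring
          rw [this]
          exact (((int_max_sq hI X).const_mul _).add (int_max_sq hI a)).add (i1.const_mul _)
        · simp only
          have h3 := le_max_right (v - X) 0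
          have h4 := le_max_right (v - a) 0
          have h5 := mul_nonneg h3 h4
          have h6 := mul_nonneg hK.le h5
          nlinarith
      have hKT : 0 < K ^ 2 * T μ X := by positivity
      have e : (X - a) / √(T μ X) * K⁻¹ = (X - a) / √(K ^ 2 * T μ X) := by
        rw [Real.sqrt_mul (sq_nonneg K), Real.sqrt_sq hK.le]
        field_simp
      rw [e]
      exact div_le_div_of_nonneg_left (by linarith) (Real.sqrt_pos.mpr hKT) (Real.sqrt_le_sqrt h2)
    have htend : Tendsto (fun K : ℝ => (X - a) / √(T μ X) * K⁻¹) atTop (𝓝 ((X - a) / √(T μ X) * 0)) :=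
      tendsto_inv_atTop_zero.const_mul _
    rw [mul_zero] at htend
    refine ge_of_tendsto htend ?_
    filter_upwards [eventually_gt_atTop 0] with K hK
    exact hr K hK

theorem cplus_empty (hB : Base μ a d) (hI : ¬ Integrable (fun v : ℝ => v ^ 2) μ) :
    CPlus μ a = ∅ := by
  rw [eq_empty_iff_forall_notMem]
  intro ν hν
  apply hI
  have hA := hν.1
  haveI := hA.prob
  have h0 : df ν 0 < 1 := by
    refine lt_of_le_of_ne (df_le_one _) fun h => ?_
    have hae : ∀ᵐ x ∂ν, x ≤ 0 := by
      rw [ae_iff]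
      have : {x : ℝ | ¬ x ≤ 0} = Ioi 0 := by ext x; simp
      rw [this, meas_Ioi, h]; simp
    have : ∫ x, x ^ 2 ∂ν = 0 := by
      have : (fun x : ℝ => x ^ 2) =ᵐ[ν] fun _ => 0 := by
        filter_upwards [hae, hA.ae_nonneg] with x hx hx0
        simp only [Pi.zero_apply] at hx0
        have : x = 0 := le_antisymm hx hx0
        rw [this]; simp
      rw [integral_congr_ae this]; simp
    linarith [hA.mom]
  have h00 := df_nonneg (ν := ν) 0
  set p := (df ν 0 + 1) / 2 with hpdef
  have hp : 0 < p := by rw [hpdef]; linarith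
  have hp1 : p < 1 := by rw [hpdef]; linarith
  have hq : 0 < qf ν p := by
    by_contra hlt
    push Not at hlt
    have h1 := df_mono (ν := ν) hlt
    have h2 : p ≤ df ν (qf ν p) := le_df_qf hp1
    rw [hpdef] at h2
    linarith
  obtain ⟨_, _, h, _⟩ := cplus_bound hB hp hp1 hν hq
  exact h

/-! ### the class `𝒞⁻` -/

/-- the extremal transformations `min (k (v - b)₊) c`. -/
noncomputable def cap (b k c : ℝ) (v : ℝ) : ℝ := min (k * max (v - b) 0) c

lemma cap_cont (b k c : ℝ) : Continuous (cap b k c) := by unfold cap; fun_prop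

lemma cap_mono {b k c : ℝ} (hk : 0 < k) : Monotone (cap b k c) := fun x y h =>
  min_le_min (mul_le_mul_of_nonneg_left (max_le_max (by linarith) le_rfl) hk.le) le_rfl

lemma cap_nonneg {b k c : ℝ} (hk : 0 < k) (hc : 0 < c) (v : ℝ) : 0 ≤ cap b k c v :=
  le_min (mul_nonneg hk.le (le_max_right _ _)) hc.le

lemma cap_int [IsProbabilityMeasure μ] {b k c : ℝ} (hk : 0 < k) (hc : 0 < c) :
    Integrable (fun v => cap b k c v ^ 2) μ := by
  refine Integrable.mono' (integrable_const (c ^ 2)) (by
    have := cap_cont b k c; fun_prop) (Eventually.of_forall fun v => ?_)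
  rw [Real.norm_eq_abs, abs_of_nonneg (sq_nonneg _)]
  exact pow_le_pow_left₀ (cap_nonneg hk hc v) (min_le_right _ _) 2

lemma cap_mem (hB : Base μ a d) {b k c : ℝ} (hk : 0 < k) (hc : 0 < c) (hab : a ≤ b)
    (hbd : (b : EReal) < d) : μ.map (cap b k c) ∈ CMinusLit μ a := by
  haveI := hB.prob
  refine cminus_mem hB (b := b) (cap_cont b k c) (cap_mono hk) ?_ (cap_nonneg hk hc) hab hbd ?_ ?_
    (cap_int hk hc)
  · refine ⟨convex_Ici b, fun x hx y hy s t hs ht hst => ?_⟩
    simp only [mem_Ici] at hx hy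
    simp only [smul_eq_mul, cap]
    rw [max_eq_left (by linarith : 0 ≤ x - b), max_eq_left (by linarith : 0 ≤ y - b)]
    refine le_min ?_ ?_
    · have h1 := mul_le_mul_of_nonneg_left (min_le_left (k * (x - b)) c) hs
      have h2 := mul_le_mul_of_nonneg_left (min_le_left (k * (y - b)) c) ht
      have h3 := mul_le_mul_of_nonneg_left (le_max_left (s * x + t * y - b) 0) hk.le
      have e : s * (k * (x - b)) + t * (k * (y - b)) = k * (s * x + t * y - b) := by
        linear_combination (-(k * b)) * hst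
      linarith
    · have h1 := mul_le_mul_of_nonneg_left (min_le_right (k * (x - b)) c) hs
      have h2 := mul_le_mul_of_nonneg_left (min_le_right (k * (y - b)) c) ht
      have e : s * c + t * c = c := by rw [← add_mul, hst, one_mul]
      linarith
  · simp only [cap, sub_self, max_self, mul_zero]
    exact min_eq_left hc.le
  · intro v hv
    exact lt_min (mul_pos hk (lt_max_of_lt_left (by linarith))) hc

lemma cap_mem' (hB : Base μ a d) {k c : ℝ} (hk : 0 < k) (hc : 0 < c) :
    μ.map (cap a k c) ∈ CMinus μ a := by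
  haveI := hB.prob
  refine ⟨cap_mem hB hk hc le_rfl hB.lt, ?_⟩
  rw [df_map_eq (cap_cont a k c).measurable]
  have : {v : ℝ | cap a k c v ≤ 0} ⊆ Iic a := by
    intro v hv
    simp only [Set.mem_ofPred_eq] at hv
    by_contra hlt
    simp only [mem_Iic, not_le] at hlt
    have : 0 < cap a k c v := lt_min (mul_pos hk (lt_max_of_lt_left (by linarith))) hc
    linarith
  have h := measureReal_mono (μ := μ) this
  have h2 : μ.real (Iic a) = 0 := hB.left
  exact le_antisymm (h.trans h2.le) measureReal_nonneg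

lemma lin_mem' (hB : Base μ a d) (hI : Integrable (fun v : ℝ => v ^ 2) μ) :
    μ.map (fun v => max (v - a) 0) ∈ CMinus μ a := by
  haveI := hB.prob
  refine ⟨cminus_mem hB (b := a) (by fun_prop) (hinge_mono a) ?_ (fun v => le_max_right _ _)
    le_rfl hB.lt (by simp) (fun v hv => lt_max_of_lt_left (by linarith)) (int_max_sq hI a), ?_⟩
  · refine ⟨convex_Ici a, fun x hx y hy s t hs ht hst => ?_⟩
    simp only [mem_Ici] at hx hy
    simp only [smul_eq_mul]
    rw [max_eq_left (by linarith : 0 ≤ x - a), max_eq_left (by linarith : 0 ≤ y - a)]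
    have e : s * (x - a) + t * (y - a) = s * x + t * y - a := by
      linear_combination (-a) * hst
    rw [e]
    exact le_max_left _ _
  · rw [df_map_eq (by fun_prop)]
    have : {v : ℝ | max (v - a) 0 ≤ 0} ⊆ Iic a := by
      intro v hv
      simp only [Set.mem_ofPred_eq] at hv
      simp only [mem_Iic]
      linarith [le_max_left (v - a) 0]
    have h := measureReal_mono (μ := μ) this
    have h2 : μ.real (Iic a) = 0 := hB.left
    exact le_antisymm (h.trans h2.le) measureReal_nonneg

/-- lower estimate of the moment of a cap with value `1` on `(u, ∞)`. -/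
lemma cap_mom_ge (hB : Base μ a d) {b k u : ℝ} (hk : 0 < k) (h : ∀ v, u < v → 1 ≤ k * (v - b)) :
    1 - df μ u ≤ ∫ v, cap b k 1 v ^ 2 ∂μ := by
  haveI := hB.prob
  have h1 : ∫ v, (Ioi u).indicator (fun _ => (1:ℝ)) v ∂μ ≤ ∫ v, cap b k 1 v ^ 2 ∂μ := by
    refine integral_mono ((integrable_const 1).indicator measurableSet_Ioi) (cap_int hk one_pos)
      fun v => ?_
    simp only
    by_cases hv : v ∈ Ioi u
    · rw [indicator_of_mem hv]
      have h2 := h v hv
      have h3 : 1 ≤ k * max (v - b) 0 :=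
        h2.trans (mul_le_mul_of_nonneg_left (le_max_left _ _) hk.le)
      unfold cap
      rw [min_eq_right h3]; norm_num
    · rw [indicator_of_notMem hv]; exact sq_nonneg _
  rw [integral_indicator_const _ measurableSet_Ioi, smul_eq_mul, mul_one, Measure.real,
    meas_Ioi, ENNReal.toReal_ofReal (by linarith [df_le_one (ν := μ) u])] at h1
  exact h1

/-- upper estimate of the moment of a cap. -/
lemma cap_mom_le (hB : Base μ a d) {b k : ℝ} (hk : 0 < k) :
    ∫ v, cap b k 1 v ^ 2 ∂μ ≤ 1 - df μ b := by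
  haveI := hB.prob
  have h1 : ∫ v, cap b k 1 v ^ 2 ∂μ ≤ ∫ v, (Ioi b).indicator (fun _ => (1:ℝ)) v ∂μ := by
    refine integral_mono (cap_int hk one_pos) ((integrable_const 1).indicator measurableSet_Ioi)
      fun v => ?_
    simp only
    by_cases hv : v ∈ Ioi b
    · rw [indicator_of_mem hv]
      have h2 : cap b k 1 v ≤ 1 := min_le_right _ _
      have h3 := cap_nonneg (b := b) hk one_pos v
      nlinarith
    · rw [indicator_of_notMem hv]
      simp only [mem_Ioi, not_lt] at hv
      unfold cap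
      rw [max_eq_right (by linarith : v - b ≤ 0)]; simp
  rw [integral_indicator_const _ measurableSet_Ioi, smul_eq_mul, mul_one, Measure.real,
    meas_Ioi, ENNReal.toReal_ofReal (by linarith [df_le_one (ν := μ) b])] at h1
  exact h1

lemma cap_mom_pos (hB : Base μ a d) {b k c : ℝ} (hk : 0 < k) (hc : 0 < c)
    (hbd : (b : EReal) < d) : 0 < ∫ v, cap b k c v ^ 2 ∂μ := by
  haveI := hB.prob
  rw [integral_pos_iff_support_of_nonneg (fun v => sq_nonneg _) (cap_int hk hc)]
  refine lt_of_lt_of_le (meas_Ioi_pos hB hbd) (measure_mono fun v hv => ?_)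
  simp only [Function.mem_support]
  have : 0 < cap b k c v := lt_min (mul_pos hk (lt_max_of_lt_left (by
    simp only [mem_Ioi] at hv; linarith))) hc
  positivity

theorem cminus_sup (hB : Base μ a d) (hp : 0 < p) (hp1 : p < 1) :
    IsGreatest (ratio p '' CMinus μ a)
      (1 / √(∫ v, (min ((v - a) / (qf μ p - a)) 1) ^ 2 ∂μ)) := by
  haveI := hB.prob
  obtain ⟨hxa, hxd, hxp⟩ := hB.qf_spec hp hp1
  set X := qf μ p with hX
  have hXa : 0 < X - a := by linarith
  have hk : 0 < 1 / (X - a) := by positivity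
  have e : ∫ v, (min ((v - a) / (X - a)) 1) ^ 2 ∂μ = ∫ v, cap a (1 / (X - a)) 1 v ^ 2 ∂μ := by
    refine integral_congr_ae ?_
    filter_upwards [hB.ae_ge] with v hv
    unfold cap
    rw [max_eq_left (by linarith : 0 ≤ v - a)]
    congr 2
    ring
  constructor
  · refine ⟨μ.map (cap a (1 / (X - a)) 1), cap_mem' hB hk one_pos, ?_⟩
    rw [ratio_map hB hp hp1 (cap_cont _ _ _) (cap_mono hk), e, ← hX]
    congr 1
    unfold cap
    rw [max_eq_left hXa.le, one_div_mul_cancel hXa.ne', min_self]
  · rintro _ ⟨ν, hν, rfl⟩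
    have hA := hν.1.1
    have h1 := cminus_bound hB hp hp1 hν
    rw [← hX] at h1
    refine sq_ineq (qf_nonneg hA hp hp1) zero_le_one hA.mom ?_ (by rw [one_pow, one_mul]; exact h1)
    rw [e]; exact cap_mom_pos hB hk one_pos hB.lt

lemma E2_eq (hB : Base μ a d) : ∫ v, (max (v - a) 0) ^ 2 ∂μ = ∫ v, (v - a) ^ 2 ∂μ := by
  refine integral_congr_ae ?_
  filter_upwards [hB.ae_ge] with v hv
  rw [max_eq_left (by linarith : 0 ≤ v - a)]

theorem cminus_inf (hB : Base μ a d) (hp : 0 < p) (hp1 : p < 1)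
    (hI : Integrable (fun v : ℝ => v ^ 2) μ) :
    IsGLB (ratio p '' CMinus μ a) (min 1 ((qf μ p - a) / √(∫ v, (v - a) ^ 2 ∂μ))) := by
  haveI := hB.prob
  obtain ⟨hxa, hxd, hxp⟩ := hB.qf_spec hp hp1
  set X := qf μ p with hX
  have hXa : 0 < X - a := by linarith
  have hE : 0 < ∫ v, (v - a) ^ 2 ∂μ := by
    rw [← E2_eq hB]; exact T_pos hB hI hB.lt
  constructor
  · rintro _ ⟨ν, hν, rfl⟩
    have hA := hν.1.1
    have h1 := cminus_bound' hB hp hp1 hν hI
    rw [← hX] at h1
    set E := ∫ v, (v - a) ^ 2 ∂μ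
    unfold ratio
    rcases max_cases (1:ℝ) (E / (X - a) ^ 2) with ⟨h, _⟩ | ⟨h, _⟩
    · rw [h, mul_one] at h1
      refine (min_le_left _ _).trans ?_
      have h2 : √(∫ x, x ^ 2 ∂ν) ≤ qf ν p := by
        rw [Real.sqrt_le_left (qf_nonneg hA hp hp1)]; exact h1
      rw [le_div_iff₀ (Real.sqrt_pos.mpr hA.mom), one_mul]
      exact h2
    · rw [h] at h1
      refine (min_le_right _ _).trans ?_
      refine sq_ineq hXa.le (qf_nonneg hA hp hp1) hE hA.mom ?_
      rw [← mul_div_assoc, le_div_iff₀ (by positivity)] at h1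
      linarith
  · intro w hw
    refine le_min ?_ ?_
    · -- δ → 0
      have hr : ∀ δ : ℝ, 0 < δ → δ < X - a → w ≤ 1 / √(1 - df μ (a + δ)) := by
        intro δ hδ hδX
        have hk : 0 < 1 / δ := by positivity
        have hm := cap_mem' hB hk one_pos
        have h1 := hw ⟨_, hm, rfl⟩
        rw [ratio_map hB hp hp1 (cap_cont _ _ _) (cap_mono hk), ← hX] at h1
        have e1 : cap a (1 / δ) 1 X = 1 := by
          unfold cap
          rw [max_eq_left hXa.le]
          apply min_eq_right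
          rw [one_div_mul_eq_div, le_div_iff₀ hδ]; linarith
        rw [e1] at h1
        refine h1.trans ?_
        have h2 : 1 - df μ (a + δ) ≤ ∫ v, cap a (1 / δ) 1 v ^ 2 ∂μ := by
          refine cap_mom_ge hB hk fun v hv => ?_
          rw [one_div_mul_eq_div, le_div_iff₀ hδ]; linarith
        have h3 : 0 < 1 - df μ (a + δ) := by
          have : df μ (a + δ) < 1 := hB.lt_one ((EReal.coe_lt_coe_iff.mpr (by linarith)).trans hxd)
          linarith
        exact div_le_div_of_nonneg_left zero_le_one (Real.sqrt_pos.mpr h3) (Real.sqrt_le_sqrt h2)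
      have htend : Tendsto (fun δ : ℝ => 1 / √(1 - df μ (a + δ))) (𝓝[>] 0) (𝓝 1) := by
        have hc : ContinuousAt (fun δ : ℝ => 1 / √(1 - df μ (a + δ))) 0 := by
          have := hB.cont
          refine ContinuousAt.div (by fun_prop) (by fun_prop) ?_
          rw [add_zero, hB.left]; simp
        have := hc.tendsto
        rw [add_zero, hB.left] at this
        simp only [sub_zero, Real.sqrt_one, div_one] at this
        exact this.mono_left nhdsWithin_le_nhds
      refine ge_of_tendsto htend ?_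
      have h2 : ∀ᶠ δ in 𝓝[>] (0:ℝ), δ < X - a :=
        (gt_mem_nhds hXa : ∀ᶠ s in 𝓝 (0:ℝ), s < X - a).filter_mono nhdsWithin_le_nhds
      filter_upwards [self_mem_nhdsWithin, h2] with δ hδ hδ2
      exact hr δ hδ hδ2
    · have h1 := hw ⟨_, lin_mem' hB hI, rfl⟩
      rw [ratio_map hB hp hp1 (by fun_prop) (hinge_mono a), ← hX, max_eq_left hXa.le, E2_eq hB] at h1
      exact h1

theorem cminus_inf' (hB : Base μ a d) (hp : 0 < p) (hp1 : p < 1)
    (hI : ¬ Integrable (fun v : ℝ => v ^ 2) μ) : IsGLB (ratio p '' CMinus μ a) 0 := by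
  haveI := hB.prob
  obtain ⟨hxa, hxd, hxp⟩ := hB.qf_spec hp hp1
  set X := qf μ p with hX
  have hXa : 0 < X - a := by linarith
  constructor
  · rintro _ ⟨ν, hν, rfl⟩
    exact ratio_nonneg hν.1.1 hp hp1
  · intro w hw
    -- moments of the caps tend to infinity
    have hlim : Tendsto (fun n : ℕ => ∫⁻ v, ENNReal.ofReal (cap a 1 n v ^ 2) ∂μ) atTop (𝓝 ⊤) := by
      have htop : ∫⁻ v, ENNReal.ofReal ((max (v - a) 0) ^ 2) ∂μ = ⊤ := by
        by_contra hne
        apply hI
        have hi : Integrable (fun v : ℝ => (max (v - a) 0) ^ 2) μ := by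
          refine ⟨by fun_prop, ?_⟩
          rw [hasFiniteIntegral_iff_ofReal (Eventually.of_forall fun v => sq_nonneg _)]
          exact lt_of_le_of_ne le_top hne
        refine Integrable.mono' ((hi.const_mul 2).add (integrable_const (2 * a ^ 2)))
          (by fun_prop) ?_
        filter_upwards [hB.ae_ge] with v hv
        simp only [Pi.add_apply]
        rw [Real.norm_eq_abs, abs_of_nonneg (sq_nonneg _), max_eq_left (by linarith : 0 ≤ v - a)]
        nlinarith [sq_nonneg (v - 2 * a)]
      rw [← htop]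
      refine lintegral_tendsto_of_tendsto_of_monotone (fun n => ?_) ?_ ?_
      · have := cap_cont a 1 n
        fun_prop
      · refine Eventually.of_forall fun v => fun m n hmn => ?_
        apply ENNReal.ofReal_le_ofReal
        refine pow_le_pow_left₀ ?_ ?_ 2
        · unfold cap
          exact le_min (by rw [one_mul]; exact le_max_right _ _) (Nat.cast_nonneg m)
        · exact min_le_min le_rfl (by exact_mod_cast hmn)
      · refine Eventually.of_forall fun v => ?_
        refine tendsto_const_nhds.congr' ?_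
        obtain ⟨N, hN⟩ := exists_nat_ge (max (v - a) 0)
        filter_upwards [eventually_ge_atTop N] with n hn
        unfold cap
        rw [one_mul, min_eq_left (hN.trans (by exact_mod_cast hn))]
    have hr : ∀ M : ℝ, 0 < M → w ≤ (X - a) / √M := by
      intro M hM
      have h1 : ∀ᶠ n : ℕ in atTop, ENNReal.ofReal M < ∫⁻ v, ENNReal.ofReal (cap a 1 n v ^ 2) ∂μ :=
        hlim.eventually (lt_mem_nhds ENNReal.ofReal_lt_top)
      obtain ⟨N, hN⟩ := exists_nat_ge (max (X - a) 1)
      obtain ⟨n, hn1, hn2⟩ := (h1.and (eventually_ge_atTop N)).exists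
      have hn3 : max (X - a) 1 ≤ (n : ℝ) := hN.trans (by exact_mod_cast hn2)
      have hn0 : (0:ℝ) < n := lt_of_lt_of_le (lt_max_of_lt_right one_pos) hn3
      have hm := cap_mem' hB (c := (n:ℝ)) one_pos hn0
      have h2 := hw ⟨_, hm, rfl⟩
      rw [ratio_map hB hp hp1 (cap_cont _ _ _) (cap_mono one_pos), ← hX] at h2
      have e1 : cap a 1 n X = X - a := by
        unfold cap
        rw [max_eq_left hXa.le, one_mul]
        exact min_eq_left ((le_max_left _ _).trans hn3)
      rw [e1] at h2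
      refine h2.trans ?_
      have h3 : M ≤ ∫ v, cap a 1 n v ^ 2 ∂μ := by
        rw [integral_eq_lintegral_of_nonneg_ae (Eventually.of_forall fun v => sq_nonneg _)
          (cap_int one_pos hn0).aestronglyMeasurable]
        have hfin : ∫⁻ v, ENNReal.ofReal (cap a 1 n v ^ 2) ∂μ < ⊤ :=
          (cap_int (μ := μ) (b := a) (k := 1) (c := n) one_pos hn0).lintegral_lt_top
        have := ENNReal.toReal_mono hfin.ne hn1.le
        rwa [ENNReal.toReal_ofReal hM.le] at this
      exact div_le_div_of_nonneg_left hXa.le (Real.sqrt_pos.mpr hM) (Real.sqrt_le_sqrt h3)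
    have htend : Tendsto (fun M : ℝ => (X - a) / √M) atTop (𝓝 0) :=
      Real.tendsto_sqrt_atTop.const_div_atTop _
    refine ge_of_tendsto htend ?_
    filter_upwards [eventually_gt_atTop 0] with M hM
    exact hr M hM

theorem cminusLit_sup (hB : Base μ a d) (hp : 0 < p) (hp1 : p < 1) :
    IsLUB (ratio p '' CMinusLit μ a) (1 / √(1 - p)) := by
  haveI := hB.prob
  obtain ⟨hxa, hxd, hxp⟩ := hB.qf_spec hp hp1
  set X := qf μ p with hX
  constructor
  · rintro _ ⟨ν, hν, rfl⟩
    have hA := hν.1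
    refine sq_ineq (qf_nonneg hA hp hp1) zero_le_one hA.mom (by linarith) ?_
    rw [one_pow, one_mul]
    exact gen_bound hB hp hp1 hA
  · intro w hw
    have hr : ∀ t : ℝ, a ≤ t → t < X → 1 / √(1 - df μ t) ≤ w := by
      intro t hat htX
      have htd : (t : EReal) < d := (EReal.coe_lt_coe_iff.mpr htX).trans hxd
      have hXt : 0 < X - t := by linarith
      have hk : 0 < 1 / (X - t) := by positivity
      have hm := cap_mem hB hk one_pos hat htd
      have h1 := hw ⟨_, hm, rfl⟩
      rw [ratio_map hB hp hp1 (cap_cont _ _ _) (cap_mono hk), ← hX] at h1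
      have e1 : cap t (1 / (X - t)) 1 X = 1 := by
        unfold cap
        rw [max_eq_left hXt.le, one_div_mul_cancel hXt.ne', min_self]
      rw [e1] at h1
      refine le_trans ?_ h1
      exact div_le_div_of_nonneg_left zero_le_one
        (Real.sqrt_pos.mpr (cap_mom_pos hB hk one_pos htd)) (Real.sqrt_le_sqrt (cap_mom_le hB hk))
    have htend : Tendsto (fun t : ℝ => 1 / √(1 - df μ t)) (𝓝[<] X) (𝓝 (1 / √(1 - p))) := by
      have hc : ContinuousAt (fun t : ℝ => 1 / √(1 - df μ t)) X := by
        have := hB.cont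
        refine ContinuousAt.div (by fun_prop) (by fun_prop) ?_
        rw [hxp]; exact (Real.sqrt_pos.mpr (by linarith)).ne'
      have := hc.tendsto
      rw [hxp] at this
      exact this.mono_left nhdsWithin_le_nhds
    refine le_of_tendsto htend ?_
    have h3 : ∀ᶠ s in 𝓝[<] X, a < s :=
      (lt_mem_nhds hxa : ∀ᶠ s in 𝓝 X, a < s).filter_mono nhdsWithin_le_nhds
    filter_upwards [self_mem_nhdsWithin, h3] with t ht1 ht2
    exact hr t ht2.le ht1

theorem cminusLit_inf (hB : Base μ a d) (hp : 0 < p) (hp1 : p < 1) :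
    IsLeast (ratio p '' CMinusLit μ a) 0 := by
  haveI := hB.prob
  obtain ⟨hxa, hxd, hxp⟩ := hB.qf_spec hp hp1
  constructor
  · refine ⟨_, cap_mem hB one_pos one_pos hxa.le hxd, ?_⟩
    rw [ratio_map hB hp hp1 (cap_cont _ _ _) (cap_mono one_pos)]
    simp [cap]
  · rintro _ ⟨ν, hν, rfl⟩
    exact ratio_nonneg hν.1 hp hp1

end Pool.Agent.R609.QB

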