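import Pool.Agent.R609.QB.Def

open MeasureTheory Set Filter Topology

namespace Pool.Agent.R609.QB

variable {μ ν : Measure ℝ} {a : ℝ} {d : EReal} {p : ℝ}

lemma mem_suppI (hA : Adm ν) {x : ℝ} (hx : 0 ≤ x) (h : ∀ z, z < x → df ν z < 1) :
    x ∈ suppI ν := ⟨fun z hz => hA.pos z (lt_of_le_of_lt hx hz), h⟩

lemma exists_eps (hB : Base μ a d) {r c : ℝ} (h : df μ r < c) : ∃ ε > 0, df μ (r + ε) < c := by
  haveI := hB.prob
  obtain ⟨y, hy, hy2⟩ := df_lt_right h
  exact ⟨y - r, by linarith, by rwa [add_sub_cancel]⟩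

/-- supporting line for the class `𝒞⁺`. -/
theorem cplus_line (hB : Base μ a d) (hp : 0 < p) (hp1 : p < 1) (hν : ν ∈ CPlus μ a)
    (hq : 0 < qf ν p) :
    df ν (qf ν p) = p ∧ ∃ s > 0, a ≤ qf μ p - s * qf ν p ∧
      ∀ x, 0 ≤ x → df ν x ≤ df μ (qf μ p + s * (x - qf ν p)) := by
  haveI := hB.prob
  obtain ⟨hA, hC⟩ := hν
  haveI := hA.prob
  obtain ⟨hxa, hxd, hxp⟩ := hB.qf_spec hp hp1
  set q := qf ν p with hqdef
  set X := qf μ p with hXdef
  have hltq : ∀ x < q, df ν x < p := fun x hx => lt_of_lt_qf hp hx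
  have hmemq : ∀ x, 0 ≤ x → x ≤ q → x ∈ suppI ν := fun x hx0 hx =>
    mem_suppI hA hx0 (fun z hz => (hltq z (lt_of_lt_of_le hz hx)).trans hp1)
  have hhyp : ∀ x y r t : ℝ, ∀ l : ℝ, 0 < l → l < 1 → x ∈ suppI ν → y ∈ suppI ν →
      ((r : EReal) ≤ Winv μ a (df ν x)) → ((t : EReal) ≤ Winv μ a (df ν y)) →
      (((1 - l) * r + l * t : ℝ) : EReal) ≤ Winv μ a (df ν ((1 - l) * x + l * y)) := by
    intro x y r t l hl hl1 hx hy hr ht
    have h := @hC (x, r) ⟨hx, hr⟩ (y, t) ⟨hy, ht⟩ (1 - l) l (by linarith) hl.le (by ring)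
    exact h.2
  -- Step A
  have hA1 : df ν q = p := by
    apply le_antisymm _ (le_df_qf hp1)
    by_contra hlt
    push Not at hlt
    have hlt' : df μ X < df ν q := by rw [hxp]; exact hlt
    obtain ⟨ε, hε, hε2⟩ := exists_eps hB hlt'
    set l := (X - a) / (X - a + ε) with hl
    have hden : 0 < X - a + ε := by linarith
    have hl0 : 0 < l := div_pos (by linarith) hden
    have hl1 : l < 1 := by rw [hl, div_lt_one hden]; linarith
    have h := hhyp 0 q a (X + ε) l hl0 hl1 (hmemq 0 le_rfl hq.le) (hmemq q hq.le le_rfl)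
      (by rw [Base.le_Winv]; exact fun s hs _ => hs) (hB.le_Winv_of_lt hε2)
    have e1 : (1 - l) * a + l * (X + ε) = X := by
      have : l * (X - a + ε) = X - a := by rw [hl]; field_simp
      linear_combination this
    have e2 : (1 - l) * 0 + l * q = l * q := by ring
    rw [e1, e2] at h
    have h2 := hB.df_le_of_le_Winv (df_nonneg _) (df_le_one _) h
    rw [hxp] at h2
    have h3 := hltq (l * q) (by nlinarith)
    linarith
  -- Step B
  set S : Set ℝ := {σ : ℝ | 0 ≤ σ ∧ ∀ x, 0 ≤ x → x < q → df ν x ≤ df μ (X - σ * (q - x))} with hS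
  have hS0 : (0 : ℝ) ∈ S := ⟨le_rfl, fun x _ hx => by
    simp only [zero_mul, sub_zero]; rw [hxp]; exact (hltq x hx).le⟩
  have hSb : BddAbove S := by
    refine ⟨2 * (X - a) / q, fun σ hσ => ?_⟩
    have h1 := hσ.2 (q / 2) (by linarith) (by linarith)
    have h2 : 0 < df μ (X - σ * (q - q / 2)) := lt_of_lt_of_le (hA.pos _ (by linarith)) h1
    have h3 : a < X - σ * (q - q / 2) := by
      by_contra hh
      push Not at hh
      rw [hB.zero hh] at h2
      exact lt_irrefl _ h2
    rw [le_div_iff₀ hq]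
    nlinarith
  have hSc : IsClosed S := by
    have : S = Ici 0 ∩ ⋂ x : ℝ, ⋂ (_ : 0 ≤ x), ⋂ (_ : x < q),
        {σ : ℝ | df ν x ≤ df μ (X - σ * (q - x))} := by
      ext σ
      simp only [hS, Set.mem_ofPred_eq, mem_inter_iff, mem_Ici, mem_iInter]
    rw [this]
    refine isClosed_Ici.inter (isClosed_iInter fun x => isClosed_iInter fun _ =>
      isClosed_iInter fun _ => ?_)
    exact isClosed_le continuous_const (hB.cont.comp (by fun_prop))
  set s := sSup S with hs
  have hsS : s ∈ S := hSc.csSup_mem ⟨0, hS0⟩ hSb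
  -- Step C
  have hC1 : ∀ y, q < y → df ν y ≤ df μ (X + s * (y - q)) := by
    intro y hy
    by_contra hlt
    push Not at hlt
    obtain ⟨p1, hp1a, hp1b⟩ := exists_between hlt
    have hpw : p ≤ df μ (X + s * (y - q)) := by
      rw [← hxp]; apply df_mono; nlinarith [hsS.1]
    have hpp1 : p < p1 := lt_of_le_of_lt hpw hp1a
    have hp10 : 0 < p1 := hp.trans hpp1
    have hp11 : p1 < 1 := hp1b.trans_le (df_le_one _)
    set y' := qf ν p1 with hy'
    have hy'y : y' ≤ y := qf_le hp10 hp1b.le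
    have hy'd : p1 ≤ df ν y' := le_df_qf hp11
    have hqy' : q < y' := by
      by_contra hh
      push Not at hh
      have := df_mono (ν := ν) hh
      rw [hA1] at this
      linarith
    have hy's : y' ∈ suppI ν := mem_suppI hA (hq.trans hqy').le
      (fun z hz => (lt_of_lt_qf hp10 hz).trans hp11)
    have hw : df μ (X + s * (y' - q)) < df ν y' := by
      have : df μ (X + s * (y' - q)) ≤ df μ (X + s * (y - q)) :=
        df_mono (by nlinarith [hsS.1])
      linarith
    obtain ⟨ε, hε, hε2⟩ := exists_eps hB hw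
    set s' := s + ε / (2 * (y' - q)) with hs'
    have hyq : 0 < y' - q := by linarith
    have hs's : s < s' := by
      have : 0 < ε / (2 * (y' - q)) := by positivity
      linarith
    have hs'e : s' * (y' - q) = s * (y' - q) + ε / 2 := by
      rw [hs']; field_simp
    have hs'S : s' ∉ S := fun h => absurd (le_csSup hSb h) (not_le.mpr hs's)
    have : ∃ x, 0 ≤ x ∧ x < q ∧ df μ (X - s' * (q - x)) < df ν x := by
      by_contra hne
      push Not at hne
      exact hs'S ⟨by linarith [hsS.1], hne⟩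
    obtain ⟨x, hx0, hxq, hx2⟩ := this
    obtain ⟨ε', hε', hε'2⟩ := exists_eps hB hx2
    set δ := min ε' (ε / 2) with hδ
    have hδ0 : 0 < δ := lt_min hε' (by linarith)
    have h1 : df μ (X - s' * (q - x) + δ) < df ν x :=
      lt_of_le_of_lt (df_mono (by have := min_le_left ε' (ε / 2); linarith)) hε'2
    have h2 : df μ (X + s' * (y' - q) + δ) < df ν y' := by
      refine lt_of_le_of_lt (df_mono ?_) hε2
      have := min_le_right ε' (ε / 2)
      rw [hs'e]; linarith
    set l := (q - x) / (y' - x) with hl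
    have hyx : 0 < y' - x := by linarith
    have hl0 : 0 < l := div_pos (by linarith) hyx
    have hl1 : l < 1 := by rw [hl, div_lt_one hyx]; linarith
    have hle : l * (y' - x) = q - x := by rw [hl]; field_simp
    have h := hhyp x y' (X - s' * (q - x) + δ) (X + s' * (y' - q) + δ) l hl0 hl1
      (hmemq x hx0 hxq.le) hy's (hB.le_Winv_of_lt h1) (hB.le_Winv_of_lt h2)
    have e1 : (1 - l) * x + l * y' = q := by linear_combination hle
    have e2 : (1 - l) * (X - s' * (q - x) + δ) + l * (X + s' * (y' - q) + δ) = X + δ := by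
      linear_combination s' * hle
    rw [e1, e2] at h
    have h3 := hB.df_le_of_le_Winv (df_nonneg _) (df_le_one _) h
    rw [hA1, ← hxp] at h3
    have h4 := hB.strict hxa.le (show X < X + δ by linarith) hxd
    linarith
  -- Step D
  have hs0 : 0 < s := by
    rcases hsS.1.lt_or_eq with h | h
    · exact h
    · exfalso
      have h1 : ∀ᶠ y in atTop, p < df ν y := df_top.eventually (lt_mem_nhds hp1)
      have h2 : ∀ᶠ y in atTop, q < y := eventually_gt_atTop q
      obtain ⟨y, hy1, hy2⟩ := (h1.and h2).exists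
      have := hC1 y hy2
      rw [← h] at this
      simp only [zero_mul, add_zero] at this
      rw [hxp] at this
      linarith
  refine ⟨hA1, s, hs0, ?_, ?_⟩
  · by_contra hlt
    push Not at hlt
    set δ := a - (X - s * q) with hδ
    have hδ0 : 0 < δ := by linarith
    set x := min (q / 2) (δ / s) with hx
    have hx0 : 0 < x := lt_min (by linarith) (div_pos hδ0 hs0)
    have hxq : x < q := lt_of_le_of_lt (min_le_left _ _) (by linarith)
    have h1 := hsS.2 x hx0.le hxq
    have h2 : 0 < df μ (X - s * (q - x)) := lt_of_lt_of_le (hA.pos _ hx0) h1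
    have h3 : a < X - s * (q - x) := by
      by_contra hh
      push Not at hh
      rw [hB.zero hh] at h2
      exact lt_irrefl _ h2
    have h4 : s * x ≤ δ := by
      have : x ≤ δ / s := min_le_right _ _
      rw [le_div_iff₀ hs0] at this
      linarith
    linarith
  · intro x hx
    rcases lt_trichotomy x q with h | h | h
    · have := hsS.2 x hx h
      have e : X + s * (x - q) = X - s * (q - x) := by ring
      rw [e]; exact this
    · rw [h, sub_self, mul_zero, add_zero, hA1, hxp]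
    · exact hC1 x h

/-- chord bound on the left of the quantile for the class `𝒞⁻`. -/
theorem cminus_left (hB : Base μ a d) (hp : 0 < p) (hp1 : p < 1) (hν : ν ∈ CMinus μ a) :
    0 < qf ν p ∧ ∀ x, 0 ≤ x → x < qf ν p →
      df ν x ≤ df μ (a + x * (qf μ p - a) / qf ν p) := by
  haveI := hB.prob
  obtain ⟨⟨hA, hC⟩, h0⟩ := hν
  haveI := hA.prob
  obtain ⟨hxa, hxd, hxp⟩ := hB.qf_spec hp hp1
  set q := qf ν p with hqdef
  set X := qf μ p with hXdef
  have hltq : ∀ x < q, df ν x < p := fun x hx => lt_of_lt_qf hp hx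
  have hq : 0 < q := by
    by_contra hlt
    push Not at hlt
    have h1 := df_mono (ν := ν) hlt
    have h2 : p ≤ df ν q := le_df_qf hp1
    rw [h0] at h1
    linarith
  refine ⟨hq, fun x hx0 hxq => ?_⟩
  have hmemq : ∀ x, 0 ≤ x → x ≤ q → x ∈ suppI ν := fun x hx0 hx =>
    mem_suppI hA hx0 (fun z hz => (hltq z (lt_of_lt_of_le hz hx)).trans hp1)
  have hepi : ∀ x y r t : ℝ, ∀ l : ℝ, 0 < l → l < 1 → x ∈ suppI ν → y ∈ suppI ν →
      (Winv μ a (df ν x) ≤ (r : EReal)) → (Winv μ a (df ν y) ≤ (t : EReal)) →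
      Winv μ a (df ν ((1 - l) * x + l * y)) ≤ (((1 - l) * r + l * t : ℝ) : EReal) := by
    intro x y r t l hl hl1 hx hy hr ht
    have h := @hC (x, r) ⟨hx, hr⟩ (y, t) ⟨hy, ht⟩ (1 - l) l (by linarith) hl.le (by ring)
    exact h.2
  rcases hx0.eq_or_lt with rfl | hx0
  · rw [h0]; exact df_nonneg _
  -- for q' ∈ (x, q)
  have key : ∀ q', x < q' → q' < q → df ν x ≤ df μ (a + x / q' * (X - a)) := by
    intro q' h1 h2
    have hq' : 0 < q' := hx0.trans h1
    have hl1 : x / q' < 1 := (div_lt_one hq').mpr h1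
    have h := hepi 0 q' a X (x / q') (by positivity) hl1 (hmemq 0 le_rfl hq.le)
      (hmemq q' hq'.le h2.le) (by rw [hB.Winv_le, h0]; exact ⟨le_rfl, df_nonneg _⟩)
      (by rw [hB.Winv_le, hxp]; exact ⟨hxa.le, (hltq q' h2).le⟩)
    have e1 : (1 - x / q') * 0 + x / q' * q' = x := by field_simp; ring
    have e2 : (1 - x / q') * a + x / q' * X = a + x / q' * (X - a) := by ring
    rw [e1, e2, hB.Winv_le] at h
    exact h.2
  have hcont : ContinuousAt (fun q' : ℝ => df μ (a + x / q' * (X - a))) q := by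
    apply hB.cont.continuousAt.comp
    have : ContinuousAt (fun q' : ℝ => x / q') q := continuousAt_const.div continuousAt_id hq.ne'
    exact continuousAt_const.add (this.mul continuousAt_const)
  have ht : Tendsto (fun q' : ℝ => df μ (a + x / q' * (X - a))) (𝓝[<] q)
      (𝓝 (df μ (a + x / q * (X - a)))) := hcont.tendsto.mono_left nhdsWithin_le_nhds
  have e : a + x * (X - a) / q = a + x / q * (X - a) := by ring
  rw [e]
  refine ge_of_tendsto ht ?_
  have h2 : ∀ᶠ s in 𝓝[<] q, s < q := self_mem_nhdsWithin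
  have h3 : ∀ᶠ s in 𝓝[<] q, x < s :=
    (lt_mem_nhds hxq : ∀ᶠ s in 𝓝 q, x < s).filter_mono nhdsWithin_le_nhds
  filter_upwards [h2, h3] with s hs2 hs3
  exact key s hs3 hs2

/-- supporting line for the class `𝒞⁻`. -/
theorem cminus_line (hB : Base μ a d) (hp : 0 < p) (hp1 : p < 1) (hν : ν ∈ CMinus μ a)
    (hlt1 : df ν (qf ν p) < 1) :
    ∃ s > 0, qf μ p - s * qf ν p ≤ a ∧
      ∀ x, 0 ≤ x → df μ (qf μ p + s * (x - qf ν p)) ≤ df ν x := by
  haveI := hB.prob
  have hq : 0 < qf ν p := (cminus_left hB hp hp1 hν).1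
  obtain ⟨⟨hA, hC⟩, h0⟩ := hν
  haveI := hA.prob
  obtain ⟨hxa, hxd, hxp⟩ := hB.qf_spec hp hp1
  set q := qf ν p with hqdef
  set X := qf μ p with hXdef
  have hltq : ∀ x < q, df ν x < p := fun x hx => lt_of_lt_qf hp hx
  have hpq : p ≤ df ν q := le_df_qf hp1
  have hmemq : ∀ x, 0 ≤ x → x ≤ q → x ∈ suppI ν := fun x hx0 hx =>
    mem_suppI hA hx0 (fun z hz => (hltq z (lt_of_lt_of_le hz hx)).trans hp1)
  have hepi : ∀ x y r t : ℝ, ∀ l : ℝ, 0 < l → l < 1 → x ∈ suppI ν → y ∈ suppI ν →
      (Winv μ a (df ν x) ≤ (r : EReal)) → (Winv μ a (df ν y) ≤ (t : EReal)) →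
      Winv μ a (df ν ((1 - l) * x + l * y)) ≤ (((1 - l) * r + l * t : ℝ) : EReal) := by
    intro x y r t l hl hl1 hx hy hr ht
    have h := @hC (x, r) ⟨hx, hr⟩ (y, t) ⟨hy, ht⟩ (1 - l) l (by linarith) hl.le (by ring)
    exact h.2
  obtain ⟨y1, hy1, hy1d⟩ := df_lt_right hlt1
  -- the set of admissible slopes
  set S : Set ℝ := {σ : ℝ | 0 ≤ σ ∧ ∀ y, q < y → df μ (X + σ * (y - q)) ≤ df ν y} with hS
  have hS0 : (0 : ℝ) ∈ S := ⟨le_rfl, fun y hy => by
    simp only [zero_mul, add_zero]; rw [hxp]; exact hpq.trans (df_mono hy.le)⟩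
  have hSb : BddAbove S := by
    -- choose R with W R > df ν y1
    have h1 : ∀ᶠ y in atTop, df ν y1 < df μ y := df_top.eventually (lt_mem_nhds hy1d)
    obtain ⟨R, hR⟩ := h1.exists
    refine ⟨(R - X) / (y1 - q), fun σ hσ => ?_⟩
    have h2 := hσ.2 y1 hy1
    have h3 := (hB.lt_of_lt (lt_of_le_of_lt h2 hR)).le
    rw [le_div_iff₀ (by linarith)]
    linarith
  have hSc : IsClosed S := by
    have : S = Ici 0 ∩ ⋂ y : ℝ, ⋂ (_ : q < y),
        {σ : ℝ | df μ (X + σ * (y - q)) ≤ df ν y} := by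
      ext σ
      simp only [hS, Set.mem_ofPred_eq, mem_inter_iff, mem_Ici, mem_iInter]
    rw [this]
    refine isClosed_Ici.inter (isClosed_iInter fun x => isClosed_iInter fun _ => ?_)
    exact isClosed_le (hB.cont.comp (by fun_prop)) continuous_const
  set s := sSup S with hs
  have hsS : s ∈ S := hSc.csSup_mem ⟨0, hS0⟩ hSb
  have hL : ∀ x, 0 ≤ x → x < q → df μ (X - s * (q - x)) ≤ df ν x := by
    intro x hx0 hxq
    by_contra hlt
    push Not at hlt
    -- s' > s with still >
    have hqx : 0 < q - x := by linarith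
    have hcont : ContinuousAt (fun σ : ℝ => df μ (X - σ * (q - x))) s :=
      (hB.cont.comp (by fun_prop)).continuousAt
    have hev : ∀ᶠ σ in 𝓝[>] s, df ν x < df μ (X - σ * (q - x)) :=
      (hcont.tendsto.mono_left nhdsWithin_le_nhds).eventually (lt_mem_nhds hlt)
    have hev2 : ∀ᶠ σ in 𝓝[>] s, s < σ := self_mem_nhdsWithin
    obtain ⟨s', hs'1, hs'2⟩ := (hev.and hev2).exists
    have hs'S : s' ∉ S := fun h => absurd (le_csSup hSb h) (not_le.mpr hs'2)
    have : ∃ y, q < y ∧ df ν y < df μ (X + s' * (y - q)) := by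
      by_contra hne
      push Not at hne
      exact hs'S ⟨by linarith [hsS.1], hne⟩
    obtain ⟨y, hqy, hy2⟩ := this
    have hys : y ∈ suppI ν := mem_suppI hA (hq.trans hqy).le
      (fun z hz => lt_of_le_of_lt (df_mono hz.le) (hy2.trans_le (df_le_one _)))
    have hpos : a < X - s' * (q - x) := by
      by_contra hh
      push Not at hh
      rw [hB.zero hh] at hs'1
      exact absurd hs'1 (not_lt.mpr (df_nonneg _))
    -- ε with room
    have hcx : ∀ᶠ ε in 𝓝[>] (0:ℝ), df ν x < df μ (X - s' * (q - x) - ε) := by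
      have hc : ContinuousAt (fun ε : ℝ => df μ (X - s' * (q - x) - ε)) 0 :=
        (hB.cont.comp (by fun_prop)).continuousAt
      refine (hc.tendsto.mono_left nhdsWithin_le_nhds).eventually (lt_mem_nhds ?_)
      simpa using hs'1
    have hcy : ∀ᶠ ε in 𝓝[>] (0:ℝ), df ν y < df μ (X + s' * (y - q) - ε) := by
      have hc : ContinuousAt (fun ε : ℝ => df μ (X + s' * (y - q) - ε)) 0 :=
        (hB.cont.comp (by fun_prop)).continuousAt
      refine (hc.tendsto.mono_left nhdsWithin_le_nhds).eventually (lt_mem_nhds ?_)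
      simpa using hy2
    have hca : ∀ᶠ ε in 𝓝[>] (0:ℝ), a < X - s' * (q - x) - ε := by
      have hc : ContinuousAt (fun ε : ℝ => X - s' * (q - x) - ε) 0 := by fun_prop
      refine (hc.tendsto.mono_left nhdsWithin_le_nhds).eventually (lt_mem_nhds ?_)
      simpa using hpos
    have hce : ∀ᶠ ε in 𝓝[>] (0:ℝ), (0:ℝ) < ε := self_mem_nhdsWithin
    obtain ⟨ε, ⟨h1, h2⟩, h3, h4⟩ := ((hcx.and hcy).and (hca.and hce)).exists
    have hs'0 : 0 ≤ s' := by linarith [hsS.1]
    set l := (q - x) / (y - x) with hl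
    have hyx : 0 < y - x := by linarith
    have hl0 : 0 < l := div_pos (by linarith) hyx
    have hl1 : l < 1 := by rw [hl, div_lt_one hyx]; linarith
    have hle : l * (y - x) = q - x := by rw [hl]; field_simp
    have h := hepi x y (X - s' * (q - x) - ε) (X + s' * (y - q) - ε) l hl0 hl1
      (hmemq x hx0 hxq.le) hys (by rw [hB.Winv_le]; exact ⟨h3.le, h1.le⟩)
      (by rw [hB.Winv_le]; exact ⟨by nlinarith, h2.le⟩)
    have e1 : (1 - l) * x + l * y = q := by linear_combination hle
    have e2 : (1 - l) * (X - s' * (q - x) - ε) + l * (X + s' * (y - q) - ε) = X - ε := by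
      linear_combination s' * hle
    rw [e1, e2, hB.Winv_le] at h
    have h5 := hB.strict h.1 (show X - ε < X by linarith)
      ((EReal.coe_lt_coe_iff.mpr (show X - ε < X by linarith)).trans hxd)
    rw [hxp] at h5
    linarith [h.2]
  have hXs : X - s * q ≤ a := by
    have := hL 0 le_rfl hq
    rw [h0, sub_zero] at this
    by_contra hh
    push Not at hh
    exact absurd this (not_le.mpr (hB.pos hh))
  refine ⟨s, ?_, hXs, ?_⟩
  · rcases hsS.1.lt_or_eq with h | h
    · exact h
    · rw [← h] at hXs; linarith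
  · intro x hx
    rcases lt_trichotomy x q with h | h | h
    · have := hL x hx h
      have e : X + s * (x - q) = X - s * (q - x) := by ring
      rw [e]; exact this
    · rw [h, sub_self, mul_zero, add_zero, hxp]; exact hpq
    · exact hsS.2 x h

end Pool.Agent.R609.QB
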