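import Pool.Agent.R609.QB.Def

open MeasureTheory Set Filter Topology

namespace Pool.Agent.R609.QB

variable {μ : Measure ℝ} {a : ℝ} {d : EReal} {p : ℝ} {g : ℝ → ℝ}

lemma df_map_eq (hg : Measurable g) (x : ℝ) : df (μ.map g) x = μ.real {v | g v ≤ x} := by
  unfold df
  rw [map_measureReal_apply hg measurableSet_Iic]
  rfl

lemma df_map_ge [IsProbabilityMeasure μ] (hg : Measurable g) (hm : Monotone g) {r x : ℝ}
    (h : g r ≤ x) : df μ r ≤ df (μ.map g) x := by
  rw [df_map_eq hg]
  exact measureReal_mono (fun v hv => (hm hv).trans h)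

lemma df_map_le [IsProbabilityMeasure μ] (hg : Measurable g) (hm : Monotone g) {r x : ℝ}
    (h : x < g r) : df (μ.map g) x ≤ df μ r := by
  rw [df_map_eq hg]
  refine measureReal_mono (fun v hv => ?_)
  by_contra hlt
  simp only [mem_Iic, not_le] at hlt
  have := hm hlt.le
  simp only [Set.mem_ofPred_eq] at hv
  linarith

lemma qf_map (hB : Base μ a d) (hp : 0 < p) (hp1 : p < 1) (hg : Continuous g) (hm : Monotone g) :
    qf (μ.map g) p = g (qf μ p) := by
  haveI := hB.prob
  haveI := Measure.isProbabilityMeasure_map (μ := μ) hg.measurable.aemeasurable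
  apply qf_eq hp hp1
  · exact (le_df_qf hp1).trans (df_map_ge hg.measurable hm le_rfl)
  · intro x hx
    have h1 : ∀ᶠ r in 𝓝[<] (qf μ p), x < g r :=
      (hg.continuousAt.tendsto.mono_left nhdsWithin_le_nhds).eventually (lt_mem_nhds hx)
    have h2 : ∀ᶠ r in 𝓝[<] (qf μ p), r < qf μ p := self_mem_nhdsWithin
    obtain ⟨r, hr1, hr2⟩ := (h1.and h2).exists
    exact lt_of_le_of_lt (df_map_le hg.measurable hm hr1) (lt_of_lt_qf hp hr2)

lemma adm_map (hB : Base μ a d) (hg : Continuous g) (hm : Monotone g) (h0 : ∀ v, 0 ≤ g v)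
    {b : ℝ} (hab : a ≤ b) (hbd : (b : EReal) < d) (hb : g b = 0) (hpos : ∀ v, b < v → 0 < g v)
    (hint : Integrable (fun v => g v ^ 2) μ) : Adm (μ.map g) := by
  haveI := hB.prob
  have hP := Measure.isProbabilityMeasure_map (μ := μ) hg.measurable.aemeasurable
  refine ⟨hP, fun x hx => ?_, fun x hx => ?_, ?_, ?_⟩
  · rw [df_map_eq hg.measurable]
    have : {v | g v ≤ x} = ∅ := by
      ext v
      simp only [Set.mem_ofPred_eq, mem_empty_iff_false, iff_false, not_le]
      linarith [h0 v]
    rw [this]; simp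
  · have h1 : ∀ᶠ r in 𝓝[>] b, g r < x := by
      refine (hg.continuousAt.tendsto.mono_left nhdsWithin_le_nhds).eventually (gt_mem_nhds ?_)
      rw [hb]; exact hx
    have h2 : ∀ᶠ r in 𝓝[>] b, b < r := self_mem_nhdsWithin
    obtain ⟨r, hr1, hr2⟩ := (h1.and h2).exists
    exact lt_of_lt_of_le (hB.pos (lt_of_le_of_lt hab hr2)) (df_map_ge hg.measurable hm hr1.le)
  · exact (integrable_map_measure (by fun_prop) hg.measurable.aemeasurable).mpr hint
  · rw [integral_map hg.measurable.aemeasurable (by fun_prop)]
    rw [integral_pos_iff_support_of_nonneg (fun v => sq_nonneg _) hint]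
    have hsub : Ioi b ⊆ Function.support (fun v => g v ^ 2) := by
      intro v hv
      simp only [Function.mem_support]
      exact pow_ne_zero 2 (hpos v hv).ne'
    refine lt_of_lt_of_le ?_ (measure_mono hsub)
    have : (Ioi b) = (Iic b)ᶜ := by simp
    rw [this, prob_compl_eq_one_sub measurableSet_Iic, tsub_pos_iff_lt]
    have h1 := hB.lt_one hbd
    unfold df at h1
    rw [Measure.real, ← ENNReal.toReal_one] at h1
    exact (ENNReal.toReal_lt_toReal (measure_ne_top _ _) ENNReal.one_ne_top).mp h1

lemma suppI_nonneg {ν : Measure ℝ} (hA : Adm ν) {x : ℝ} (hx : x ∈ suppI ν) : 0 ≤ x := by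
  by_contra h
  push Not at h
  have h1 := hx.1 (x / 2) (by linarith)
  rw [hA.neg _ (by linarith)] at h1
  exact lt_irrefl _ h1

lemma conv_ge {x y s t z : ℝ} (hs : 0 ≤ s) (ht : 0 ≤ t) (hst : s + t = 1) (hx : z ≤ x)
    (hy : z ≤ y) : z ≤ s * x + t * y := by
  have e : z = s * z + t * z := by rw [← add_mul, hst, one_mul]
  have := mul_le_mul_of_nonneg_left hx hs
  have := mul_le_mul_of_nonneg_left hy ht
  linarith

lemma conv_le {x y s t z : ℝ} (hs : 0 ≤ s) (ht : 0 ≤ t) (hst : s + t = 1) (hx : x ≤ z)
    (hy : y ≤ z) : s * x + t * y ≤ z := by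
  have e : z = s * z + t * z := by rw [← add_mul, hst, one_mul]
  have := mul_le_mul_of_nonneg_left hx hs
  have := mul_le_mul_of_nonneg_left hy ht
  linarith

lemma suppI_conv {ν : Measure ℝ} {x y s t : ℝ} (hx : x ∈ suppI ν) (hy : y ∈ suppI ν)
    (hs : 0 ≤ s) (ht : 0 ≤ t) (hst : s + t = 1) : s * x + t * y ∈ suppI ν := by
  constructor
  · intro z hz
    rcases lt_or_ge x z with h | h
    · exact hx.1 z h
    · rcases lt_or_ge y z with h' | h'
      · exact hy.1 z h'
      · exfalso
        linarith [conv_ge hs ht hst h h']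
  · intro z hz
    rcases lt_or_ge z x with h | h
    · exact hx.2 z h
    · rcases lt_or_ge z y with h' | h'
      · exact hy.2 z h'
      · exfalso
        linarith [conv_le hs ht hst h h']

theorem cplus_mem (hB : Base μ a d) (hg : Continuous g) (hm : Monotone g)
    (hc : ConvexOn ℝ univ g) (h0 : ∀ v, 0 ≤ g v)
    {b : ℝ} (hab : a ≤ b) (hbd : (b : EReal) < d) (hb : g b = 0) (hpos : ∀ v, b < v → 0 < g v)
    (hint : Integrable (fun v => g v ^ 2) μ) : μ.map g ∈ CPlus μ a := by
  haveI := hB.prob
  have hA := adm_map hB hg hm h0 hab hbd hb hpos hint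
  haveI := hA.prob
  refine ⟨hA, ?_⟩
  -- (x,r) in hypograph implies `g r ≤ x`
  have key : ∀ x r : ℝ, x ∈ suppI (μ.map g) → (r : EReal) ≤ Winv μ a (df (μ.map g) x) →
      g r ≤ x := by
    intro x r hx hr
    have hx0 := suppI_nonneg hA hx
    rw [Base.le_Winv] at hr
    -- for all r' < r, g r' ≤ x
    have h1 : ∀ r' < r, g r' ≤ x := by
      intro r' hr'
      by_contra hlt
      push Not at hlt
      rcases le_total a r' with h | h
      · have := hr r' h (df_map_le hg.measurable hm hlt)
        linarith
      · have h2 : g r' ≤ g b := hm (h.trans hab)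
        rw [hb] at h2
        linarith
    have hct : Tendsto g (𝓝[<] r) (𝓝 (g r)) :=
      hg.continuousAt.tendsto.mono_left nhdsWithin_le_nhds
    refine le_of_tendsto hct ?_
    filter_upwards [self_mem_nhdsWithin] with r' hr'
    exact h1 r' hr'
  have keyd : ∀ x r : ℝ, (r : EReal) ≤ Winv μ a (df (μ.map g) x) → (r : EReal) ≤ d := by
    intro x r hr
    rw [Base.le_Winv] at hr
    by_contra hlt
    push Not at hlt
    obtain ⟨z, hz1, hz2⟩ := EReal.lt_iff_exists_real_btwn.mp hlt
    have hz3 := hB.right z hz1.le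
    have haz : a ≤ z := (EReal.coe_lt_coe_iff.mp (hB.lt.trans hz1)).le
    have := hr z haz (by rw [hz3]; exact df_le_one _)
    have h4 := EReal.coe_lt_coe_iff.mp hz2
    linarith
  rintro ⟨x, r1⟩ ⟨hx, hr1⟩ ⟨y, r2⟩ ⟨hy, hr2⟩ s t hs ht hst
  simp only at hx hr1 hy hr2
  refine ⟨suppI_conv hx hy hs ht hst, ?_⟩
  simp only [Prod.smul_mk, Prod.mk_add_mk, smul_eq_mul]
  have hgr : g (s * r1 + t * r2) ≤ s * x + t * y := by
    have h1 := hc.2 (mem_univ r1) (mem_univ r2) hs ht hst
    simp only [smul_eq_mul] at h1
    nlinarith [mul_le_mul_of_nonneg_left (key x r1 hx hr1) hs,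
      mul_le_mul_of_nonneg_left (key y r2 hy hr2) ht]
  rw [Base.le_Winv]
  intro r' hr'a hr'
  by_contra hlt
  push Not at hlt
  have h2 : df μ (s * r1 + t * r2) ≤ df μ r' := (df_map_ge hg.measurable hm hgr).trans hr'
  have h3 : ((s * r1 + t * r2 : ℝ) : EReal) ≤ d := by
    have e1 := keyd x r1 hr1
    have e2 := keyd y r2 hr2
    have : s * r1 + t * r2 ≤ max r1 r2 :=
      conv_le hs ht hst (le_max_left r1 r2) (le_max_right r1 r2)
    refine (EReal.coe_le_coe_iff.mpr this).trans ?_
    rcases max_cases r1 r2 with ⟨h, _⟩ | ⟨h, _⟩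
    · rw [h]; exact e1
    · rw [h]; exact e2
  have h4 := hB.strict hr'a hlt ((EReal.coe_lt_coe_iff.mpr hlt).trans_le h3)
  linarith

theorem cminus_mem (hB : Base μ a d) (hg : Continuous g) (hm : Monotone g)
    {b : ℝ} (hc : ConcaveOn ℝ (Ici b) g) (h0 : ∀ v, 0 ≤ g v)
    (hab : a ≤ b) (hbd : (b : EReal) < d) (hb : g b = 0) (hpos : ∀ v, b < v → 0 < g v)
    (hint : Integrable (fun v => g v ^ 2) μ) : μ.map g ∈ CMinusLit μ a := by
  haveI := hB.prob
  have hA := adm_map hB hg hm h0 hab hbd hb hpos hint
  haveI := hA.prob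
  refine ⟨hA, ?_⟩
  have hdf0 : ∀ x, 0 ≤ x → df μ b ≤ df (μ.map g) x := fun x hx =>
    df_map_ge hg.measurable hm (by rw [hb]; exact hx)
  -- (x,r) in epigraph implies `b ≤ r` and `x ≤ g r`
  have key : ∀ x r : ℝ, x ∈ suppI (μ.map g) → a ≤ r → df (μ.map g) x ≤ df μ r →
      b ≤ r ∧ x ≤ g r := by
    intro x r hx har hr
    have hx0 := suppI_nonneg hA hx
    constructor
    · by_contra hlt
      push Not at hlt
      have h1 := hB.strict har hlt ((EReal.coe_lt_coe_iff.mpr hlt).trans hbd)
      linarith [hdf0 x hx0]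
    · by_contra hlt
      push Not at hlt
      have h1 : df μ r ≤ df (μ.map g) (g r) := df_map_ge hg.measurable hm le_rfl
      have h2 : df (μ.map g) (g r) ≤ df (μ.map g) x := df_mono hlt.le
      have h3 := hx.2 (g r) hlt
      have h4 : (r : EReal) < d := hB.lt_d (by linarith)
      have h5 : ∀ᶠ r' in 𝓝[>] r, g r' < x :=
        (hg.continuousAt.tendsto.mono_left nhdsWithin_le_nhds).eventually (gt_mem_nhds hlt)
      have h6 : ∀ᶠ r' in 𝓝[>] r, r < r' := self_mem_nhdsWithin
      obtain ⟨r', hr'1, hr'2⟩ := (h5.and h6).exists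
      have h7 := hB.strict har hr'2 h4
      have h8 : df μ r' ≤ df (μ.map g) x := df_map_ge hg.measurable hm hr'1.le
      linarith
  rintro ⟨x, r1⟩ ⟨hx, hr1⟩ ⟨y, r2⟩ ⟨hy, hr2⟩ s t hs ht hst
  simp only [hB.Winv_le] at hx hr1 hy hr2
  refine ⟨suppI_conv hx hy hs ht hst, ?_⟩
  simp only [Prod.smul_mk, Prod.mk_add_mk, smul_eq_mul, hB.Winv_le]
  obtain ⟨k1, k1'⟩ := key x r1 hx hr1.1 hr1.2
  obtain ⟨k2, k2'⟩ := key y r2 hy hr2.1 hr2.2
  have hbr : b ≤ s * r1 + t * r2 := conv_ge hs ht hst k1 k2
  refine ⟨hab.trans hbr, ?_⟩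
  have hcc := hc.2 k1 k2 hs ht hst
  simp only [smul_eq_mul] at hcc
  have m1 := mul_le_mul_of_nonneg_left k1' hs
  have m2 := mul_le_mul_of_nonneg_left k2' ht
  have hz : s * x + t * y ≤ g (s * r1 + t * r2) := by linarith
  rcases hz.lt_or_eq with hz | hz
  · exact df_map_le hg.measurable hm hz
  · rcases hs.eq_or_lt with rfl | hs
    · have : t = 1 := by linarith
      subst this
      simpa using hr2.2
    rcases ht.eq_or_lt with rfl | ht
    · have : s = 1 := by linarith
      subst this
      simpa using hr1.2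
    -- both weights positive
    set r := s * r1 + t * r2 with hr
    set z := s * x + t * y with hzz
    by_cases hv : ∃ v, r < v ∧ z < g v
    · obtain ⟨v, hv1, hv2⟩ := hv
      -- g v' > z for all v' > r
      have hall : ∀ v', r < v' → z < g v' := by
        intro v' hv'
        rcases le_total v v' with h | h
        · exact hv2.trans_le (hm h)
        · have hvr : 0 < v - r := by linarith
          set l := (v' - r) / (v - r) with hl
          have hl0 : 0 < l := div_pos (by linarith) hvr
          have hl1 : l ≤ 1 := by rw [hl, div_le_one hvr]; linarith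
          have hle : l * (v - r) = v' - r := by rw [hl]; field_simp
          have h1 := hc.2 hbr (show v ∈ Ici b from hbr.trans hv1.le)
            (show (0:ℝ) ≤ 1 - l by linarith) hl0.le (by ring)
          simp only [smul_eq_mul] at h1
          have e : (1 - l) * r + l * v = v' := by linear_combination hle
          rw [e] at h1
          nlinarith
      rw [df_map_eq hg.measurable]
      refine measureReal_mono (fun w hw => ?_)
      by_contra hlt
      simp only [mem_Iic, not_le] at hlt
      have := hall w hlt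
      simp only [Set.mem_ofPred_eq] at hw
      linarith
    · push Not at hv
      have hall : ∀ v, g v ≤ z := by
        intro v
        rcases lt_or_ge r v with h | h
        · exact hv v h
        · exact (hm h).trans hz.ge
      have e1 : x ≤ z := k1'.trans (hall r1)
      have e2 : y ≤ z := k2'.trans (hall r2)
      have e3 : x = z := by
        by_contra hne
        have : x < z := lt_of_le_of_ne e1 hne
        have q1 := mul_lt_mul_of_pos_left this hs
        have q2 := mul_le_mul_of_nonneg_left e2 ht.le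
        have : z < s * z + t * z := by linarith
        rw [← add_mul, hst, one_mul] at this
        exact lt_irrefl _ this
      have e4 : y = z := by
        by_contra hne
        have : y < z := lt_of_le_of_ne e2 hne
        have q1 := mul_lt_mul_of_pos_left this ht
        have q2 := mul_le_mul_of_nonneg_left e1 hs.le
        have : z < s * z + t * z := by linarith
        rw [← add_mul, hst, one_mul] at this
        exact lt_irrefl _ this
      have e5 : df (μ.map g) z = 1 := by
        rw [df_map_eq hg.measurable]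
        have : {v | g v ≤ z} = univ := by ext v; simp [hall v]
        rw [this]; simp
      have e6 : df μ r1 = 1 := le_antisymm (df_le_one _) (by
        have := hr1.2
        rw [e3, e5] at this
        exact this)
      have e7 : df μ r2 = 1 := le_antisymm (df_le_one _) (by
        have := hr2.2
        rw [e4, e5] at this
        exact this)
      rw [e5]
      rcases le_total r1 r2 with h | h
      · have : r1 ≤ r := by
          rw [hr]
          have : r1 = s * r1 + t * r1 := by rw [← add_mul, hst, one_mul]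
          nlinarith
        have := df_mono (ν := μ) this
        rw [e6] at this; exact this
      · have : r2 ≤ r := by
          rw [hr]
          have : r2 = s * r2 + t * r2 := by rw [← add_mul, hst, one_mul]
          nlinarith
        have := df_mono (ν := μ) this
        rw [e7] at this; exact this

end Pool.Agent.R609.QB
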