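import Pool.Agent.R609.QB.Line
import Pool.Agent.R609.QB.Mem

open MeasureTheory Set Filter Topology

namespace Pool.Agent.R609.QB

/-- stochastic dominance gives a comparison of second moments. -/
theorem dom_lintegral {α β : Type*} [MeasurableSpace α] [MeasurableSpace β] {P : Measure α}
    {Q : Measure β} {f : α → ℝ} {g : β → ℝ} (hf : 0 ≤ᵐ[P] f) (hg : 0 ≤ᵐ[Q] g)
    (hfm : AEMeasurable f P) (hgm : AEMeasurable g Q)
    (h : ∀ x > 0, P {v | x < f v} ≤ Q {v | x < g v}) :
    ∫⁻ v, ENNReal.ofReal (f v ^ 2) ∂P ≤ ∫⁻ v, ENNReal.ofReal (g v ^ 2) ∂Q := by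
  have h1 := lintegral_rpow_eq_lintegral_meas_lt_mul P hf hfm (p := 2) (by norm_num)
  have h2 := lintegral_rpow_eq_lintegral_meas_lt_mul Q hg hgm (p := 2) (by norm_num)
  simp only [Real.rpow_two] at h1 h2
  rw [h1, h2]
  refine mul_le_mul_right ?_ _
  refine setLIntegral_mono' measurableSet_Ioi fun x hx => ?_
  exact mul_le_mul_left (h x hx) _

theorem dom_integral {α β : Type*} [MeasurableSpace α] [MeasurableSpace β] {P : Measure α}
    {Q : Measure β} {f : α → ℝ} {g : β → ℝ} (hf : 0 ≤ᵐ[P] f) (hg : 0 ≤ᵐ[Q] g)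
    (hfm : Measurable f) (hgm : Measurable g)
    (h : ∀ x > 0, P {v | x < f v} ≤ Q {v | x < g v})
    (hint : Integrable (fun v => g v ^ 2) Q) :
    Integrable (fun v => f v ^ 2) P ∧ ∫ v, f v ^ 2 ∂P ≤ ∫ v, g v ^ 2 ∂Q := by
  have hl := dom_lintegral hf hg hfm.aemeasurable hgm.aemeasurable h
  have hQ : ∫⁻ v, ENNReal.ofReal (g v ^ 2) ∂Q < ⊤ := by
    have := hint.lintegral_lt_top
    exact this
  have hI : Integrable (fun v => f v ^ 2) P := by
    refine ⟨(hfm.pow_const 2).aestronglyMeasurable, ?_⟩
    rw [hasFiniteIntegral_iff_ofReal (Eventually.of_forall fun v => sq_nonneg _)]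
    exact lt_of_le_of_lt hl hQ
  refine ⟨hI, ?_⟩
  rw [integral_eq_lintegral_of_nonneg_ae (Eventually.of_forall fun v => sq_nonneg _)
      hI.aestronglyMeasurable,
    integral_eq_lintegral_of_nonneg_ae (Eventually.of_forall fun v => sq_nonneg _)
      hint.aestronglyMeasurable]
  exact ENNReal.toReal_mono hQ.ne hl

lemma meas_Ioi {ν : Measure ℝ} [IsProbabilityMeasure ν] (x : ℝ) :
    ν (Ioi x) = ENNReal.ofReal (1 - df ν x) := by
  have : (Ioi x) = (Iic x)ᶜ := by simp
  rw [this, ← ofReal_measureReal (by finiteness), probReal_compl_eq_one_sub measurableSet_Iic]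
  rfl

variable {μ ν : Measure ℝ} {a : ℝ} {d : EReal} {p : ℝ}

lemma Adm.ae_nonneg (hA : Adm ν) : 0 ≤ᵐ[ν] fun x : ℝ => x := by
  haveI := hA.prob
  have h : ν (Iio 0) = 0 := by
    have e : Iio (0 : ℝ) = ⋃ n : ℕ, Iic (-(1 / ((n : ℝ) + 1))) := by
      ext x
      simp only [mem_Iio, mem_iUnion, mem_Iic]
      constructor
      · intro hx
        obtain ⟨n, hn⟩ := exists_nat_one_div_lt (neg_pos.mpr hx)
        exact ⟨n, by linarith⟩
      · rintro ⟨n, hn⟩
        have : (0:ℝ) < 1 / ((n : ℝ) + 1) := by positivity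
        linarith
    rw [e, measure_iUnion_null_iff]
    intro n
    have hx : -(1 / ((n : ℝ) + 1)) < 0 := by
      have : (0:ℝ) < 1 / ((n : ℝ) + 1) := by positivity
      linarith
    have := hA.neg _ hx
    unfold df at this
    rwa [measureReal_eq_zero_iff] at this
  rw [Filter.EventuallyLE, ae_iff]
  convert h using 2
  ext x; simp

lemma Base.ae_ge (hB : Base μ a d) : ∀ᵐ v ∂μ, a < v := by
  haveI := hB.prob
  rw [ae_iff]
  have h := hB.left
  unfold df at h
  rw [measureReal_eq_zero_iff] at h
  convert h using 2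
  ext x; simp

/-- The tail second moment `E (V - t)₊²`. -/
noncomputable def T (μ : Measure ℝ) (t : ℝ) : ℝ := ∫ v, (max (v - t) 0) ^ 2 ∂μ

lemma int_max_sq [IsProbabilityMeasure μ] (hI : Integrable (fun v : ℝ => v ^ 2) μ) (t : ℝ) :
    Integrable (fun v : ℝ => (max (v - t) 0) ^ 2) μ := by
  refine Integrable.mono' ((hI.const_mul 2).add (integrable_const (2 * t ^ 2)))
    (by fun_prop) (Eventually.of_forall fun v => ?_)
  simp only [Pi.add_apply]
  rw [Real.norm_eq_abs, abs_of_nonneg (sq_nonneg _)]
  have h1 : (max (v - t) 0) ^ 2 ≤ (v - t) ^ 2 := by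
    rcases max_cases (v - t) 0 with ⟨h, _⟩ | ⟨h, _⟩
    · rw [h]
    · rw [h]; nlinarith [sq_nonneg (v - t)]
  nlinarith [sq_nonneg (v + t)]

lemma int_id [IsProbabilityMeasure μ] (hI : Integrable (fun v : ℝ => v ^ 2) μ) :
    Integrable (fun v : ℝ => v) μ := by
  refine Integrable.mono' (hI.add (integrable_const 1)) (by fun_prop)
    (Eventually.of_forall fun v => ?_)
  simp only [Pi.add_apply]
  rw [Real.norm_eq_abs, abs_le]
  constructor <;> nlinarith [sq_nonneg (v + 1), sq_nonneg (v - 1)]

lemma int_max [IsProbabilityMeasure μ] (hI : Integrable (fun v : ℝ => v ^ 2) μ) (t : ℝ) :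
    Integrable (fun v : ℝ => max (v - t) 0) μ :=
  ((int_id hI).sub (integrable_const t)).pos_part

/-- integrability of products of functions with integrable squares. -/
lemma int_mul {f g : ℝ → ℝ} (hf : Integrable (fun v => f v ^ 2) μ)
    (hg : Integrable (fun v => g v ^ 2) μ) (hfm : Measurable f) (hgm : Measurable g) :
    Integrable (fun v => f v * g v) μ := by
  refine Integrable.mono' (hf.add hg) (hfm.mul hgm).aestronglyMeasurable
    (Eventually.of_forall fun v => ?_)
  simp only [Pi.add_apply]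
  rw [Real.norm_eq_abs, abs_le]
  constructor <;> nlinarith [sq_nonneg (f v + g v), sq_nonneg (f v - g v)]

lemma int_sub_sq [IsProbabilityMeasure μ] (hI : Integrable (fun v : ℝ => v ^ 2) μ) (t : ℝ) :
    Integrable (fun v : ℝ => (v - t) ^ 2) μ := by
  have : (fun v : ℝ => (v - t) ^ 2) = fun v => v ^ 2 - 2 * t * v + t ^ 2 := by
    ext v; ring
  rw [this]
  exact (hI.sub ((int_id hI).const_mul (2 * t))).add (integrable_const _)

/-- the basic inequality for the class `𝒞⁺`. -/
theorem cplus_bound (hB : Base μ a d) (hp : 0 < p) (hp1 : p < 1) (hν : ν ∈ CPlus μ a)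
    (hq : 0 < qf ν p) :
    ∃ t ∈ Ico a (qf μ p), Integrable (fun v : ℝ => v ^ 2) μ ∧
      (qf ν p) ^ 2 * T μ t ≤ (qf μ p - t) ^ 2 * ∫ x, x ^ 2 ∂ν := by
  haveI := hB.prob
  have hA := hν.1
  haveI := hA.prob
  obtain ⟨hxa, hxd, hxp⟩ := hB.qf_spec hp hp1
  obtain ⟨_, s, hs, hsa, hline⟩ := cplus_line hB hp hp1 hν hq
  set q := qf ν p
  set X := qf μ p
  set t := X - s * q with ht
  have hdom := dom_integral (P := μ) (Q := ν) (f := fun v => max (v - t) 0 / s)
    (g := fun x => x) (Eventually.of_forall fun v => div_nonneg (le_max_right _ _) hs.le)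
    hA.ae_nonneg (by fun_prop) (by fun_prop) (by
      intro x hx
      have e1 : {v : ℝ | x < max (v - t) 0 / s} = Ioi (t + s * x) := by
        ext v
        simp only [Set.mem_ofPred_eq, mem_Ioi, lt_div_iff₀ hs, lt_max_iff]
        constructor
        · rintro (h | h)
          · linarith
          · nlinarith
        · intro h; left; linarith
      have e2 : {v : ℝ | x < v} = Ioi x := rfl
      rw [e1, e2, meas_Ioi, meas_Ioi]
      apply ENNReal.ofReal_le_ofReal
      have := hline x hx.le
      have e : X + s * (x - q) = t + s * x := by rw [ht]; ring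
      rw [e] at this
      linarith) hA.int
  obtain ⟨hI1, hI2⟩ := hdom
  have hI3 : Integrable (fun v : ℝ => (max (v - t) 0) ^ 2) μ := by
    have : (fun v : ℝ => (max (v - t) 0) ^ 2) = fun v => s ^ 2 * (max (v - t) 0 / s) ^ 2 := by
      ext v; field_simp
    rw [this]
    exact hI1.const_mul _
  have hta : t < X := by
    rw [ht]; nlinarith [mul_pos hs hq]
  refine ⟨t, ⟨hsa, hta⟩, ?_, ?_⟩
  · refine Integrable.mono' ((hI3.const_mul 2).add (integrable_const (2 * t ^ 2 + a ^ 2)))
      (by fun_prop) ?_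
    filter_upwards [hB.ae_ge] with v hv
    simp only [Pi.add_apply]
    rw [Real.norm_eq_abs, abs_of_nonneg (sq_nonneg _)]
    rcases max_cases (v - t) 0 with ⟨h, h'⟩ | ⟨h, h'⟩
    · rw [h]; nlinarith [sq_nonneg (v - 2 * t), sq_nonneg a]
    · rw [h]
      have : v ^ 2 ≤ t ^ 2 + a ^ 2 := by
        rcases le_total 0 v with h0 | h0
        · nlinarith [sq_nonneg a]
        · nlinarith [sq_nonneg t]
      nlinarith [sq_nonneg t]
  · have e : ∫ v, (max (v - t) 0 / s) ^ 2 ∂μ = T μ t / s ^ 2 := by
      unfold T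
      rw [← integral_div]
      congr 1
      ext v
      rw [div_pow]
    rw [e, div_le_iff₀ (by positivity)] at hI2
    have e2 : X - t = s * q := by rw [ht]; ring
    rw [e2]
    have hq2 : 0 ≤ q ^ 2 := sq_nonneg _
    nlinarith [mul_le_mul_of_nonneg_left hI2 hq2]

/-- the first upper bound for `𝒞⁻`. -/
theorem cminus_bound (hB : Base μ a d) (hp : 0 < p) (hp1 : p < 1) (hν : ν ∈ CMinus μ a) :
    (qf ν p) ^ 2 * ∫ v, (min ((v - a) / (qf μ p - a)) 1) ^ 2 ∂μ ≤ ∫ x, x ^ 2 ∂ν := by
  haveI := hB.prob
  have hA := hν.1.1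
  haveI := hA.prob
  obtain ⟨hxa, hxd, hxp⟩ := hB.qf_spec hp hp1
  obtain ⟨hq, hline⟩ := cminus_left hB hp hp1 hν
  set q := qf ν p
  set X := qf μ p
  have hXa : 0 < X - a := by linarith
  have hdom := dom_integral (P := μ) (Q := ν) (f := fun v => q * min ((v - a) / (X - a)) 1)
    (g := fun x => x) (by
      filter_upwards [hB.ae_ge] with v hv
      simp only [Pi.zero_apply]
      have : 0 ≤ (v - a) / (X - a) := div_nonneg (by linarith) hXa.le
      exact mul_nonneg hq.le (le_min this zero_le_one))
    hA.ae_nonneg (by fun_prop) (by fun_prop) (by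
      intro x hx
      have e2 : {v : ℝ | x < v} = Ioi x := rfl
      rw [e2]
      rcases lt_or_ge x q with h | h
      · have e1 : {v : ℝ | x < q * min ((v - a) / (X - a)) 1} ⊆ Ioi (a + x * (X - a) / q) := by
          intro v hv
          simp only [Set.mem_ofPred_eq] at hv
          simp only [mem_Ioi]
          have h1 : q * min ((v - a) / (X - a)) 1 ≤ q * ((v - a) / (X - a)) :=
            mul_le_mul_of_nonneg_left (min_le_left _ _) hq.le
          have h2 : x < q * ((v - a) / (X - a)) := lt_of_lt_of_le hv h1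
          rw [← mul_div_assoc, lt_div_iff₀ hXa] at h2
          have h3 : x * (X - a) / q < v - a := by
            rw [div_lt_iff₀ hq]; linarith
          linarith
        refine (measure_mono e1).trans ?_
        rw [meas_Ioi, meas_Ioi]
        apply ENNReal.ofReal_le_ofReal
        have := hline x hx.le h
        linarith
      · have e1 : {v : ℝ | x < q * min ((v - a) / (X - a)) 1} = ∅ := by
          ext v
          simp only [Set.mem_ofPred_eq, mem_empty_iff_false, iff_false, not_lt]
          have h1 : q * min ((v - a) / (X - a)) 1 ≤ q * 1 :=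
            mul_le_mul_of_nonneg_left (min_le_right _ _) hq.le
          linarith
        rw [e1, measure_empty]; exact zero_le) hA.int
  have := hdom.2
  simp only [mul_pow] at this
  rwa [integral_const_mul] at this

/-- the bound from below for `𝒞⁻`. -/
theorem cminus_bound' (hB : Base μ a d) (hp : 0 < p) (hp1 : p < 1) (hν : ν ∈ CMinus μ a)
    (hI : Integrable (fun v : ℝ => v ^ 2) μ) :
    ∫ x, x ^ 2 ∂ν ≤ (qf ν p) ^ 2 * max 1 ((∫ v, (v - a) ^ 2 ∂μ) / (qf μ p - a) ^ 2) := by
  haveI := hB.prob
  have hA := hν.1.1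
  haveI := hA.prob
  obtain ⟨hxa, hxd, hxp⟩ := hB.qf_spec hp hp1
  have hq := (cminus_left hB hp hp1 hν).1
  rcases (df_le_one (ν := ν) (qf ν p)).lt_or_eq with hlt | heq
  · obtain ⟨s, hs, hsa, hline⟩ := cminus_line hB hp hp1 hν hlt
    set q := qf ν p
    set X := qf μ p
    have hXa : 0 < X - a := by linarith
    set l := (X - a) / (s * q) with hl
    have hsq : 0 < s * q := mul_pos hs hq
    have hl0 : 0 < l := div_pos hXa hsq
    have hl1 : l ≤ 1 := by rw [hl, div_le_one hsq]; linarith
    have hpt : ∀ v, q + (v - X) / s = (1 - l) * q + l * (q * ((v - a) / (X - a))) := by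
      intro v
      rw [hl]; field_simp; ring
    have hsubint := int_sub_sq hI a
    have hmaj : ∀ v, a < v → (max (q + (v - X) / s) 0) ^ 2 ≤
        (1 - l) * q ^ 2 + l * (q ^ 2 * ((v - a) ^ 2 / (X - a) ^ 2)) := by
      intro v hv
      have h0 : 0 ≤ (v - a) / (X - a) := div_nonneg (by linarith) hXa.le
      have h1 : 0 ≤ q + (v - X) / s := by
        rw [hpt]
        have : 0 ≤ 1 - l := by linarith
        positivity
      rw [max_eq_left h1, hpt, ← div_pow]
      set y := (v - a) / (X - a)
      have : (1 - l) * q ^ 2 + l * (q ^ 2 * y ^ 2) - ((1 - l) * q + l * (q * y)) ^ 2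
          = l * (1 - l) * (q - q * y) ^ 2 := by ring
      have h2 : 0 ≤ l * (1 - l) * (q - q * y) ^ 2 :=
        mul_nonneg (mul_nonneg hl0.le (by linarith)) (sq_nonneg _)
      linarith
    have hmajI : Integrable (fun v : ℝ => (1 - l) * q ^ 2 + l * (q ^ 2 * ((v - a) ^ 2 / (X - a) ^ 2))) μ :=
      (integrable_const _).add (((hsubint.div_const _).const_mul _).const_mul _)
    have hgI : Integrable (fun v : ℝ => (max (q + (v - X) / s) 0) ^ 2) μ := by
      refine Integrable.mono' hmajI (by fun_prop) ?_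
      filter_upwards [hB.ae_ge] with v hv
      rw [Real.norm_eq_abs, abs_of_nonneg (sq_nonneg _)]
      exact hmaj v hv
    have hdom := dom_integral (P := ν) (Q := μ) (f := fun x => x)
      (g := fun v => max (q + (v - X) / s) 0) hA.ae_nonneg
      (Eventually.of_forall fun v => le_max_right _ _) (by fun_prop) (by fun_prop) (by
        intro x hx
        have e2 : {v : ℝ | x < v} = Ioi x := rfl
        have e1 : {v : ℝ | x < max (q + (v - X) / s) 0} = Ioi (X + s * (x - q)) := by
          ext v
          simp only [Set.mem_ofPred_eq, mem_Ioi, lt_max_iff]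
          constructor
          · rintro (h | h)
            · have h1 : x - q < (v - X) / s := by linarith
              rw [lt_div_iff₀ hs] at h1
              linarith
            · exact absurd h (not_lt.mpr hx.le)
          · intro h
            left
            have h1 : x - q < (v - X) / s := by rw [lt_div_iff₀ hs]; linarith
            linarith
        rw [e1, e2, meas_Ioi, meas_Ioi]
        apply ENNReal.ofReal_le_ofReal
        have := hline x hx.le
        linarith) hgI
    refine hdom.2.trans ?_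
    have h1 : ∫ v, (max (q + (v - X) / s) 0) ^ 2 ∂μ ≤
        ∫ v, ((1 - l) * q ^ 2 + l * (q ^ 2 * ((v - a) ^ 2 / (X - a) ^ 2))) ∂μ := by
      refine integral_mono_ae hgI hmajI ?_
      filter_upwards [hB.ae_ge] with v hv
      exact hmaj v hv
    refine h1.trans ?_
    have i1 : ∫ _v : ℝ, (1 - l) * q ^ 2 ∂μ = (1 - l) * q ^ 2 := by simp
    have i2 : ∫ v, l * (q ^ 2 * ((v - a) ^ 2 / (X - a) ^ 2)) ∂μ
        = l * (q ^ 2 * ((∫ v, (v - a) ^ 2 ∂μ) / (X - a) ^ 2)) := by
      rw [integral_const_mul, integral_const_mul, integral_div]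
    rw [integral_add (integrable_const _) (((hsubint.div_const _).const_mul _).const_mul _),
      i1, i2]
    set E := (∫ v, (v - a) ^ 2 ∂μ) / (X - a) ^ 2
    have m1 := le_max_left (1:ℝ) E
    have m2 := le_max_right (1:ℝ) E
    have hq2 : 0 ≤ q ^ 2 := sq_nonneg _
    have hl2 : 0 ≤ 1 - l := by linarith
    have k1 : (1 - l) * q ^ 2 ≤ (1 - l) * (q ^ 2 * max 1 E) :=
      mul_le_mul_of_nonneg_left (by nlinarith) hl2
    have k2 : l * (q ^ 2 * E) ≤ l * (q ^ 2 * max 1 E) :=
      mul_le_mul_of_nonneg_left (mul_le_mul_of_nonneg_left m2 hq2) hl0.le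
    linarith
  · set q := qf ν p
    have hae : ∀ᵐ x ∂ν, x ≤ q := by
      rw [ae_iff]
      have : {x : ℝ | ¬ x ≤ q} = Ioi q := by ext x; simp
      rw [this, meas_Ioi, heq]; simp
    have h1 : ∫ x, x ^ 2 ∂ν ≤ ∫ _x, q ^ 2 ∂ν := by
      refine integral_mono_ae hA.int (integrable_const _) ?_
      filter_upwards [hae, hA.ae_nonneg] with x hx hx0
      simp only [Pi.zero_apply] at hx0
      exact pow_le_pow_left₀ hx0 hx 2
    simp only [integral_const, probReal_univ, one_smul] at h1
    have m1 := le_max_left (1:ℝ) ((∫ v, (v - a) ^ 2 ∂μ) / (qf μ p - a) ^ 2)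
    nlinarith [sq_nonneg q]

/-- general bound: `q² (1-p) ≤ m²`. -/
theorem gen_bound (hB : Base μ a d) (hp : 0 < p) (hp1 : p < 1) (hA : Adm ν) :
    (qf ν p) ^ 2 * (1 - p) ≤ ∫ x, x ^ 2 ∂ν := by
  haveI := hB.prob
  haveI := hA.prob
  obtain ⟨hxa, hxd, hxp⟩ := hB.qf_spec hp hp1
  set q := qf ν p with hqdef
  set X := qf μ p
  rcases le_or_gt q 0 with hq | hq
  · -- q ≥ 0 always
    have hq0 : 0 ≤ q := by
      by_contra hlt
      push Not at hlt
      have := hA.neg q hlt
      have h2 : p ≤ df ν q := le_df_qf hp1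
      linarith
    have : q = 0 := le_antisymm hq hq0
    rw [this]
    simpa using hA.mom.le
  · have hms : MeasurableSet (Ioi X) := measurableSet_Ioi
    have hdom := dom_integral (P := μ) (Q := ν) (f := (Ioi X).indicator fun _ => q)
      (g := fun x => x)
      (Eventually.of_forall fun v => indicator_nonneg (fun _ _ => hq.le) v)
      hA.ae_nonneg (measurable_const.indicator hms) (by fun_prop) (by
        intro x hx
        have e2 : {v : ℝ | x < v} = Ioi x := rfl
        rw [e2]
        rcases lt_or_ge x q with h | h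
        · have e1 : {v : ℝ | x < (Ioi X).indicator (fun _ => q) v} ⊆ Ioi X := by
            intro v hv
            by_contra hn
            simp only [Set.mem_ofPred_eq, indicator_of_notMem hn] at hv
            linarith
          refine (measure_mono e1).trans ?_
          rw [meas_Ioi, meas_Ioi]
          apply ENNReal.ofReal_le_ofReal
          rw [hxp]
          have : df ν x < p := lt_of_lt_qf hp h
          linarith
        · have e1 : {v : ℝ | x < (Ioi X).indicator (fun _ => q) v} = ∅ := by
            ext v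
            simp only [Set.mem_ofPred_eq, mem_empty_iff_false, iff_false, not_lt]
            by_cases hv : v ∈ Ioi X
            · rw [indicator_of_mem hv]; exact h
            · rw [indicator_of_notMem hv]; exact hx.le
          rw [e1, measure_empty]; exact zero_le) hA.int
    have e : (fun v => ((Ioi X).indicator (fun _ => q) v) ^ 2)
        = (Ioi X).indicator (fun _ => q ^ 2) := by
      ext v
      by_cases hv : v ∈ Ioi X
      · rw [indicator_of_mem hv, indicator_of_mem hv]
      · rw [indicator_of_notMem hv, indicator_of_notMem hv]; ring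
    have h2 := hdom.2
    rw [e, integral_indicator_const _ hms] at h2
    have h3 : μ.real (Ioi X) = 1 - p := by
      rw [Measure.real, meas_Ioi, hxp, ENNReal.toReal_ofReal (by linarith)]
    rw [h3, smul_eq_mul] at h2
    linarith

end Pool.Agent.R609.QB
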