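import Pool.Agent.R609.QB.Mom

open MeasureTheory Set Filter Topology

namespace Pool.Agent.R609.QB

variable {μ ν : Measure ℝ} {a : ℝ} {d : EReal} {p : ℝ}

/-- `ψ(t) = E[(V - t)₊ (V - x_p)]`. -/
noncomputable def psi (μ : Measure ℝ) (p t : ℝ) : ℝ :=
  ∫ v, max (v - t) 0 * (v - qf μ p) ∂μ

/-- the optimality condition for the threshold `t`. -/
def Opt (μ : Measure ℝ) (a p t : ℝ) : Prop :=
  psi μ p t = 0 ∨ (t = a ∧ 0 ≤ psi μ p a)

lemma meas_Ioi_pos (hB : Base μ a d) {t : ℝ} (ht : (t : EReal) < d) : 0 < μ (Ioi t) := by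
  haveI := hB.prob
  rw [meas_Ioi, ENNReal.ofReal_pos]
  have := hB.lt_one ht
  linarith

lemma T_pos (hB : Base μ a d) (hI : Integrable (fun v : ℝ => v ^ 2) μ) {t : ℝ}
    (ht : (t : EReal) < d) : 0 < T μ t := by
  haveI := hB.prob
  unfold T
  rw [integral_pos_iff_support_of_nonneg (fun v => sq_nonneg _) (int_max_sq hI t)]
  refine lt_of_lt_of_le (meas_Ioi_pos hB ht) (measure_mono fun v hv => ?_)
  simp only [Function.mem_support]
  have : 0 < max (v - t) 0 := lt_max_of_lt_left (by simp only [mem_Ioi] at hv; linarith)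
  positivity

lemma int_psi [IsProbabilityMeasure μ] (hI : Integrable (fun v : ℝ => v ^ 2) μ) (t c : ℝ) :
    Integrable (fun v : ℝ => max (v - t) 0 * (v - c)) μ :=
  int_mul (int_max_sq hI t) (int_sub_sq hI c) (by fun_prop) (by fun_prop)

/-- optimality: the condition `Opt` identifies the maximiser of `(x_p - t)²/T(t)`. -/
theorem opt_ineq (hB : Base μ a d) (hp : 0 < p) (hp1 : p < 1)
    (hI : Integrable (fun v : ℝ => v ^ 2) μ) {t u : ℝ} (ht : t ∈ Ico a (qf μ p))
    (hO : Opt μ a p t) (hu : u ∈ Ico a (qf μ p)) :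
    (qf μ p - u) ^ 2 * T μ t ≤ (qf μ p - t) ^ 2 * T μ u := by
  haveI := hB.prob
  obtain ⟨hxa, hxd, hxp⟩ := hB.qf_spec hp hp1
  set X := qf μ p with hX
  have htd : (t : EReal) < d := (EReal.coe_lt_coe_iff.mpr ht.2).trans hxd
  have hud : (u : EReal) < d := (EReal.coe_lt_coe_iff.mpr hu.2).trans hxd
  have hTt := T_pos hB hI htd
  have hTu := T_pos hB hI hud
  set A := ∫ v, max (v - t) 0 * max (v - u) 0 ∂μ with hA
  set M := ∫ v, max (v - t) 0 ∂μ with hM
  set c := psi μ p t with hc
  have hIA : Integrable (fun v : ℝ => max (v - t) 0 * max (v - u) 0) μ :=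
    int_mul (int_max_sq hI t) (int_max_sq hI u) (by fun_prop) (by fun_prop)
  -- Cauchy-Schwarz
  have hCS : A ^ 2 ≤ T μ t * T μ u := by
    set l := A / T μ u with hl
    have h0 : 0 ≤ ∫ v, (max (v - t) 0 - l * max (v - u) 0) ^ 2 ∂μ :=
      integral_nonneg fun v => sq_nonneg _
    have e : ∫ v, (max (v - t) 0 - l * max (v - u) 0) ^ 2 ∂μ = T μ t - 2 * l * A + l ^ 2 * T μ u := by
      have : (fun v : ℝ => (max (v - t) 0 - l * max (v - u) 0) ^ 2)
          = fun v => ((max (v - t) 0) ^ 2 - 2 * l * (max (v - t) 0 * max (v - u) 0))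
            + l ^ 2 * (max (v - u) 0) ^ 2 := by ext v; ring
      have i1 : Integrable (fun v : ℝ => (max (v - t) 0) ^ 2
          - 2 * l * (max (v - t) 0 * max (v - u) 0)) μ := (int_max_sq hI t).sub (hIA.const_mul _)
      rw [this, integral_add i1 ((int_max_sq hI u).const_mul _),
        integral_sub (int_max_sq hI t) (hIA.const_mul _),
        integral_const_mul, integral_const_mul]
      rfl
    rw [e] at h0
    have e2 : l * T μ u = A := by rw [hl]; field_simp
    have e3 : T μ t - 2 * l * A + l ^ 2 * T μ u = T μ t - l * A := by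
      linear_combination l * e2
    rw [e3] at h0
    have e4 : l * A * T μ u = A ^ 2 := by linear_combination A * e2
    nlinarith
  -- T t = c + (X - t) M
  have h1 : T μ t = c + (X - t) * M := by
    have : (fun v : ℝ => (max (v - t) 0) ^ 2)
        = fun v => max (v - t) 0 * (v - X) + (X - t) * max (v - t) 0 := by
      ext v
      rcases max_cases (v - t) 0 with ⟨h, _⟩ | ⟨h, _⟩
      · rw [h]; ring
      · rw [h]; ring
    unfold T
    rw [this, integral_add (int_psi hI t X) ((int_max hI t).const_mul _), integral_const_mul]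
    rfl
  -- A ≥ c + (X - u) M
  have h2 : c + (X - u) * M ≤ A := by
    have : ∫ v, (max (v - t) 0 * (v - X) + (X - u) * max (v - t) 0) ∂μ ≤ A := by
      refine integral_mono ((int_psi hI t X).add ((int_max hI t).const_mul _)) hIA fun v => ?_
      have h3 := le_max_left (v - u) 0
      have h4 := le_max_right (v - t) 0
      have := mul_le_mul_of_nonneg_left h3 h4
      simp only
      nlinarith
    rw [integral_add (int_psi hI t X) ((int_max hI t).const_mul _), integral_const_mul] at this
    exact this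
  have hM0 : 0 ≤ M := integral_nonneg fun v => le_max_right _ _
  have hXt : 0 < X - t := by linarith [ht.2]
  have hXu : 0 < X - u := by linarith [hu.2]
  -- (X-u) T t ≤ (X-t) A
  have h3 : (X - u) * T μ t ≤ (X - t) * A := by
    have h4 : (X - u) * T μ t ≤ (X - t) * (c + (X - u) * M) := by
      rw [h1]
      rcases hO with h | ⟨h, h'⟩
      · rw [← hc] at h
        rw [h]; nlinarith
      · have hc0 : 0 ≤ c := by rw [hc, h]; exact h'
        have : t ≤ u := by rw [h]; exact hu.1
        nlinarith [mul_nonneg (sub_nonneg.mpr this) hc0]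
    exact h4.trans (mul_le_mul_of_nonneg_left h2 hXt.le)
  have h5 : ((X - u) * T μ t) ^ 2 ≤ ((X - t) * A) ^ 2 :=
    pow_le_pow_left₀ (by positivity) h3 2
  have h6 : ((X - u) ^ 2 * T μ t) * T μ t ≤ ((X - t) ^ 2 * T μ u) * T μ t := by
    have : ((X - t) * A) ^ 2 ≤ (X - t) ^ 2 * (T μ t * T μ u) := by
      rw [mul_pow]; exact mul_le_mul_of_nonneg_left hCS (sq_nonneg _)
    nlinarith
  exact le_of_mul_le_mul_right h6 hTt

lemma psi_cont [IsProbabilityMeasure μ] (hI : Integrable (fun v : ℝ => v ^ 2) μ) :
    Continuous (psi μ p) := by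
  have hI1 : Integrable (fun v : ℝ => |v - qf μ p|) μ :=
    ((int_id hI).sub (integrable_const _)).abs
  have hlip : LipschitzWith (∫ v, |v - qf μ p| ∂μ).toNNReal (psi μ p) := by
    refine LipschitzWith.of_dist_le_mul fun t u => ?_
    rw [Real.coe_toNNReal _ (integral_nonneg fun v => abs_nonneg _), Real.dist_eq, Real.dist_eq]
    unfold psi
    rw [← integral_sub (int_psi hI t _) (int_psi hI u _)]
    have h1 : |∫ v, (max (v - t) 0 * (v - qf μ p) - max (v - u) 0 * (v - qf μ p)) ∂μ| ≤
        ∫ v, |max (v - t) 0 * (v - qf μ p) - max (v - u) 0 * (v - qf μ p)| ∂μ :=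
      abs_integral_le_integral_abs
    refine h1.trans ?_
    rw [← integral_mul_const]
    refine integral_mono ((int_psi hI t _).sub (int_psi hI u _)).abs (hI1.mul_const _)
      fun v => ?_
    simp only
    rw [← sub_mul, abs_mul, mul_comm]
    refine mul_le_mul_of_nonneg_left ?_ (abs_nonneg _)
    have := abs_max_sub_max_le_abs (v - t) (v - u) 0
    have e : v - t - (v - u) = -(t - u) := by ring
    rwa [e, abs_neg] at this
  exact hlip.continuous

theorem opt_exists (hB : Base μ a d) (hp : 0 < p) (hp1 : p < 1)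
    (hI : Integrable (fun v : ℝ => v ^ 2) μ) : ∃ t ∈ Ico a (qf μ p), Opt μ a p t := by
  haveI := hB.prob
  obtain ⟨hxa, hxd, hxp⟩ := hB.qf_spec hp hp1
  rcases le_or_gt 0 (psi μ p a) with h | h
  · exact ⟨a, ⟨le_rfl, hxa⟩, Or.inr ⟨rfl, h⟩⟩
  · have h1 : 0 < psi μ p (qf μ p) := by
      have e : psi μ p (qf μ p) = T μ (qf μ p) := by
        unfold psi T
        congr 1
        ext v
        rcases max_cases (v - qf μ p) 0 with ⟨h, _⟩ | ⟨h, _⟩
        · rw [h]; ring
        · rw [h]; ring
      rw [e]; exact T_pos hB hI hxd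
    obtain ⟨t, ht, hte⟩ := intermediate_value_Icc hxa.le (psi_cont (p := p) hI).continuousOn
      (show (0:ℝ) ∈ Icc (psi μ p a) (psi μ p (qf μ p)) from ⟨h.le, h1.le⟩)
    refine ⟨t, ⟨ht.1, lt_of_le_of_ne ht.2 ?_⟩, Or.inl hte⟩
    rintro rfl
    linarith

theorem opt_unique (hB : Base μ a d) (hp : 0 < p) (hp1 : p < 1)
    (hI : Integrable (fun v : ℝ => v ^ 2) μ) {t u : ℝ} (ht : t ∈ Ico a (qf μ p))
    (hu : u ∈ Ico a (qf μ p)) (hOt : Opt μ a p t) (hOu : Opt μ a p u) : t = u := by
  haveI := hB.prob
  obtain ⟨hxa, hxd, hxp⟩ := hB.qf_spec hp hp1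
  -- no t < u
  have key : ∀ t ∈ Ico a (qf μ p), ∀ u ∈ Ico a (qf μ p), Opt μ a p t → Opt μ a p u →
      ¬ t < u := by
    intro t ht u hu hOt hOu htu
    have h1 : 0 ≤ psi μ p t := by
      rcases hOt with h | ⟨h, h'⟩
      · exact h.ge
      · rw [h]; exact h'
    have h2 : psi μ p u = 0 := by
      rcases hOu with h | ⟨h, h'⟩
      · exact h
      · exfalso; rw [h] at htu; linarith [ht.1]
    set X := qf μ p with hX
    set r := (X - u) / (u - t) with hr
    have hut : 0 < u - t := by linarith
    have hXu : 0 < X - u := by linarith [hu.2]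
    have hr0 : 0 < r := div_pos hXu hut
    have hre : r * (u - t) = X - u := by rw [hr]; field_simp
    set h : ℝ → ℝ := fun v => max (v - u) 0 * (v - X)
      - r * (max (v - t) 0 * (v - X) - max (v - u) 0 * (v - X)) with hh
    have hint : Integrable h μ :=
      (int_psi hI u X).sub (((int_psi hI t X).sub (int_psi hI u X)).const_mul r)
    have hval : ∫ v, h v ∂μ = psi μ p u - r * (psi μ p t - psi μ p u) := by
      simp only [hh]
      have i1 : Integrable (fun v : ℝ => max (v - t) 0 * (v - X) - max (v - u) 0 * (v - X)) μ :=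
        (int_psi hI t X).sub (int_psi hI u X)
      rw [integral_sub (int_psi hI u X) (i1.const_mul r),
        integral_const_mul, integral_sub (int_psi hI t X) (int_psi hI u X)]
      rfl
    have hn : 0 ≤ h := by
      intro v
      simp only [Pi.zero_apply, hh]
      rcases le_or_gt v t with hv | hv
      · rw [max_eq_right (by linarith : v - u ≤ 0), max_eq_right (by linarith : v - t ≤ 0)]
        simp
      · rcases le_or_gt v u with hv' | hv'
        · rw [max_eq_right (by linarith : v - u ≤ 0), max_eq_left (by linarith : 0 ≤ v - t)]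
          have : 0 ≤ r * ((v - t) * (X - v)) :=
            mul_nonneg hr0.le (mul_nonneg (by linarith) (by linarith))
          nlinarith
        · rw [max_eq_left (by linarith : 0 ≤ v - u), max_eq_left (by linarith : 0 ≤ v - t)]
          have : (v - u) * (v - X) - r * ((v - t) * (v - X) - (v - u) * (v - X))
              = (v - X) ^ 2 := by linear_combination -(v - X) * hre
          rw [this]; exact sq_nonneg _
    have hpos : 0 < ∫ v, h v ∂μ := by
      rw [integral_pos_iff_support_of_nonneg hn hint]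
      have hsub : Ioo t u ⊆ Function.support h := by
        intro v hv
        simp only [Function.mem_support, hh]
        rw [max_eq_right (by linarith [hv.2] : v - u ≤ 0), max_eq_left (by linarith [hv.1] : 0 ≤ v - t)]
        have : 0 < r * ((v - t) * (X - v)) :=
          mul_pos hr0 (mul_pos (by linarith [hv.1]) (by linarith [hv.2]))
        intro h0
        nlinarith
      refine lt_of_lt_of_le ?_ (measure_mono hsub)
      have hioc : μ (Ioo t u) = μ (Ioc t u) := by
        apply measure_congr
        have : NullSingletonClass μ := ⟨hB.noAtom⟩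
        exact Ioo_ae_eq_Ioc
      rw [hioc]
      have hud : (u : EReal) < d := (EReal.coe_lt_coe_iff.mpr hu.2).trans hxd
      have hs := hB.strict ht.1 htu ((EReal.coe_lt_coe_iff.mpr htu).trans hud)
      by_contra hz
      have hz0 : μ (Ioc t u) = 0 := le_antisymm (not_lt.mp hz) zero_le
      have : Iic u ⊆ Iic t ∪ Ioc t u := by
        intro v hv
        rcases le_or_gt v t with h | h
        · left; exact h
        · right; exact ⟨h, hv⟩
      have h3 : μ (Iic u) ≤ μ (Iic t) := by
        refine (measure_mono this).trans ((measure_union_le _ _).trans ?_)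
        rw [hz0, add_zero]
      have h4 : df μ u ≤ df μ t := ENNReal.toReal_mono (measure_ne_top _ _) h3
      linarith
    rw [hval, h2] at hpos
    nlinarith
  rcases lt_trichotomy t u with h | h | h
  · exact absurd h (key t ht u hu hOt hOu)
  · exact h
  · exact absurd h (key u hu t ht hOu hOt)

end Pool.Agent.R609.QB
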